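import Pool.Agent.H593Z.Heis

set_option autoImplicit false

/-!
Cells, registers, the bus schedule and the local rule of a self-simulating row whose time is the
discrete Heisenberg group and whose columns may run in different time frames.
-/

namespace H650Z.Min

open Classical H593Z.Sim H593Z.Sim.Heis

abbrev NN := {g : Heis // Bl 1 g}

inductive Slot where
  | St (x : Col)
  | Res (x : Col) (n : NN)
  | IR (x : Col) (n : NN)
  | O (x : Col) (n : NN) (t : Fin 5)
  | cR (x : Col)
  | cD (x : Col)
  | W (x : Col)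
  | Pst (x y : Col)
  | P (y : Col)
  | Qst (x y : Col)
  | RqL (x : Col)
  | RqR (x : Col)

inductive Comp where
  | role
  | dig
  | slot (s : Slot)

inductive Src where
  | own (j : Comp)
  | inL (x : Col)
  | inR (x : Col)

instance : Finite Slot := Finite.of_equiv _ (proxy_equiv% Slot)
instance : Finite Comp := Finite.of_equiv _ (proxy_equiv% Comp)

noncomputable def nC : ℕ := Nat.card Comp
noncomputable def nX : ℕ := Nat.card Col
noncomputable def idx : Comp ≃ Fin nC := Finite.equivFin Comp
noncomputable def idxX : Col ≃ Fin nX := Finite.equivFin Col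

noncomputable def B : ℕ := nC + 5
noncomputable def Hh : ℕ := 9 * (B + 2)
noncomputable def PL : ℕ := 2 * Hh + 4
noncomputable def nW : ℕ := 2 + nC + 2 * nX
noncomputable def LL : ℕ := nW * PL
noncomputable def TT : ℕ := LL + 6
noncomputable def cap : ℕ := TT + 3
noncomputable def RR : ℕ := cap + 10
noncomputable def kk : ℤ := mm RR

theorem B_def : B = nC + 5 := rfl
theorem Hh_def : Hh = 9 * (B + 2) := rfl
theorem PL_def : PL = 2 * Hh + 4 := rfl
theorem nW_def : nW = 2 + nC + 2 * nX := rfl
theorem TT_def : TT = LL + 6 := rfl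
theorem cap_def : cap = TT + 3 := rfl
theorem RR_def : RR = cap + 10 := rfl

abbrev Rl := Fin B
abbrev TH := Fin (cap + 1)

/-! ### positions and windows -/

noncomputable def cmp (p : Rl) : Comp :=
  if h : 4 ≤ p.val ∧ p.val < 4 + nC then idx.symm ⟨p.val - 4, by omega⟩ else .role

noncomputable def wi : Src → ℕ
  | .own j => 2 + (idx j).val
  | .inL x => 2 + nC + (idxX x).val
  | .inR x => 2 + nC + nX + (idxX x).val

noncomputable def src (k : ℕ) : Src :=
  if k = 0 then .own .role else if k = 1 then .own .dig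
  else if h : ∃ σ, wi σ = k then h.choose else .own .role

noncomputable def pos : Src → ℕ
  | .own j => 5 + (idx j).val
  | .inL _ => 0
  | .inR _ => B + 1

noncomputable def dl (p : Rl) (σ : Src) : ℕ := (p.val + 1 - pos σ) + (pos σ - (p.val + 1))

def chn : Src → Col
  | .own _ => colH 1
  | .inL x => x
  | .inR x => x

noncomputable def th (d : ℕ) : ℕ := TT - d
noncomputable def win (t : ℕ) : ℕ := t / PL
noncomputable def len (t : ℕ) : ℕ := if t < LL then min Hh (min (t % PL) (PL - t % PL)) else 0
noncomputable def pt (k : ℕ) : ℕ := k * PL + Hh + 3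

theorem wi_inj : Function.Injective wi := by
  intro σ σ' h
  cases σ <;> cases σ' <;> simp only [wi] at h
  · rename_i j j'
    have : idx j = idx j' := Fin.ext (by omega)
    rw [idx.injective this]
  · rename_i j x; have := (idx j).2; omega
  · rename_i j x; have := (idx j).2; omega
  · rename_i x j; have := (idx j).2; omega
  · rename_i j j'
    have : idxX j = idxX j' := Fin.ext (by omega)
    rw [idxX.injective this]
  · rename_i x y; have := (idxX x).2; omega
  · rename_i x j; have := (idx j).2; omega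
  · rename_i x y; have := (idxX y).2; omega
  · rename_i j j'
    have : idxX j = idxX j' := Fin.ext (by omega)
    rw [idxX.injective this]

theorem wi_ge (σ : Src) : 2 ≤ wi σ := by
  cases σ <;> simp only [wi] <;> omega

theorem wi_lt (σ : Src) : wi σ < nW := by
  rw [nW_def]
  cases σ with
  | own j => have := (idx j).2; simp only [wi]; omega
  | inL x => have := (idxX x).2; simp only [wi]; omega
  | inR x => have := (idxX x).2; simp only [wi]; omega

theorem src_wi (σ : Src) : src (wi σ) = σ := by
  have h := wi_ge σ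
  have hex : ∃ σ', wi σ' = wi σ := ⟨σ, rfl⟩
  unfold src
  rw [if_neg (by omega), if_neg (by omega), dif_pos hex]
  exact wi_inj hex.choose_spec

theorem src_zero : src 0 = .own .role := by simp [src]
theorem src_one : src 1 = .own .dig := by simp [src]

theorem src_cases (k : ℕ) : (∃ j, src k = .own j) ∨ wi (src k) = k := by
  unfold src
  split_ifs with h1 h2 h3
  · exact Or.inl ⟨_, rfl⟩
  · exact Or.inl ⟨_, rfl⟩
  · exact Or.inr h3.choose_spec
  · exact Or.inl ⟨_, rfl⟩

theorem dl_le (p : Rl) (σ : Src) : dl p σ ≤ B := by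
  have := p.2
  have hB := B_def
  unfold dl
  cases σ with
  | own j => have := (idx j).2; simp only [pos]; omega
  | inL x => simp only [pos]; omega
  | inR x => simp only [pos]; omega

theorem pos_eq {p : Rl} {σ : Src} (h : pos σ = p.val + 1) : σ = .own (cmp p) ∧ p.val ≠ 3 := by
  have := p.2
  cases σ with
  | own j =>
    simp only [pos] at h
    have h2 := (idx j).2
    refine ⟨?_, by omega⟩
    unfold cmp
    rw [dif_pos (by omega)]
    congr 1
    rw [Equiv.eq_symm_apply]
    exact Fin.ext (by simp only; omega)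
  | inL x => simp only [pos] at h; omega
  | inR x => simp only [pos] at h; omega

theorem pos_right {p : Rl} {σ : Src} (hp : p.val = B - 1) (h : p.val + 1 < pos σ) :
    σ = .inR (chn σ) := by
  have hB := B_def
  cases σ with
  | own j => have := (idx j).2; simp only [pos] at h; omega
  | inL x => simp only [pos] at h; omega
  | inR x => rfl

theorem pos_left {p : Rl} {σ : Src} (hp : p.val = 0) (h : pos σ < p.val + 1) :
    σ = .inL (chn σ) := by
  cases σ with
  | own j => simp only [pos] at h; omega
  | inL x => rfl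
  | inR x => simp only [pos] at h; omega

theorem pt_le {k : ℕ} (h : k < nW) : pt k ≤ LL := by
  have h1 : (k + 1) * PL ≤ nW * PL := Nat.mul_le_mul_right _ h
  have h2 := PL_def
  unfold pt LL
  rw [add_mul, one_mul] at h1
  omega

theorem pt_mono {k k' : ℕ} (h : k < k') : pt k + 2 ≤ k' * PL := by
  have h1 : (k + 1) * PL ≤ k' * PL := Nat.mul_le_mul_right _ h
  have h2 := PL_def
  have h3 := Hh_def
  unfold pt
  rw [add_mul, one_mul] at h1
  omega

theorem pt_ge (k : ℕ) : k * PL + 3 ≤ pt k := by unfold pt; omega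

theorem win_le (t : ℕ) : win t * PL ≤ t := Nat.div_mul_le_self _ _

theorem plateau {k t : ℕ} (hk : k < nW) (h1 : pt k ≤ t + 2) (h2 : t < pt k) :
    win t = k ∧ len t = Hh := by
  have h3 := PL_def
  have h4 := pt_le hk
  unfold pt at h1 h2 h4
  obtain ⟨s, rfl⟩ : ∃ s, t = s + PL * k := ⟨t - PL * k, by rw [mul_comm] at h1; omega⟩
  rw [mul_comm] at h1 h2 h4
  unfold win len
  rw [Nat.add_mul_div_left _ _ (by omega), Nat.add_mul_mod_self_left,
    Nat.div_eq_of_lt (by omega), Nat.mod_eq_of_lt (by omega), zero_add, if_pos (by omega)]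
  exact ⟨rfl, by omega⟩

theorem len_le (t : ℕ) : len t ≤ t := by
  unfold len
  split_ifs
  · have := Nat.mod_le t PL
    omega
  · exact Nat.zero_le _

theorem len_lip {t t' a : ℕ} (h1 : t ≤ t' + a) (h2 : t' ≤ t + a) (h : a < len t) :
    win t' = win t ∧ len t ≤ len t' + a := by
  have h3 := PL_def
  have hP : 0 < PL := by omega
  have hlt : t % PL < PL := Nat.mod_lt _ hP
  have hdiv := Nat.div_add_mod t PL
  have htL : t < LL := by
    by_contra hc
    unfold len at h
    rw [if_neg hc] at h
    omega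
  have hq : t / PL < nW := by
    rw [Nat.div_lt_iff_lt_mul hP]; exact htL
  have hq2 : PL * (t / PL + 1) ≤ PL * nW := Nat.mul_le_mul_left _ hq
  rw [mul_add, mul_one, mul_comm PL nW] at hq2
  unfold len at h
  rw [if_pos htL] at h
  obtain ⟨s, hs⟩ : ∃ s, t' = s + PL * (t / PL) := ⟨t' - PL * (t / PL), by omega⟩
  have hs1 : s < PL := by omega
  have e1 : t' / PL = t / PL := by
    conv_lhs => rw [hs]
    rw [Nat.add_mul_div_left _ _ hP, Nat.div_eq_of_lt hs1, zero_add]
  have e2 : t' % PL = s := by
    conv_lhs => rw [hs]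
    rw [Nat.add_mul_mod_self_left, Nat.mod_eq_of_lt hs1]
  have ht' : t' < LL := by unfold LL; omega
  unfold win len
  rw [e1, e2, if_pos htL, if_pos ht']
  exact ⟨rfl, by omega⟩

theorem len_big {t : ℕ} (h : LL ≤ t) : len t = 0 := by
  unfold len; rw [if_neg (by omega)]

/-! ### digits, colours and distances -/

abbrev DC := Dig RR × Col

noncomputable def dact (g : Heis) (D : DC) : DC := (g • D.1, tail kk (g * D.1.1) • D.2)

def Near (D : DC) (x : Col) (l : ℕ) : Prop := ∃ g, Bl l g ∧ (dact g D).2 = x

noncomputable def d (D : DC) (x : Col) : ℕ :=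
  Nat.find (p := fun l => Near D x l ∨ cap ≤ l) ⟨cap, Or.inr le_rfl⟩

theorem d_le_cap (D : DC) (x : Col) : d D x ≤ cap := Nat.find_min' _ (Or.inr le_rfl)

theorem d_le {D : DC} {x : Col} {l : ℕ} (h : Near D x l) : d D x ≤ l :=
  Nat.find_min' _ (Or.inl h)

theorem near_d {D : DC} {x : Col} (h : d D x < cap) : Near D x (d D x) := by
  rcases Nat.find_spec (p := fun l => Near D x l ∨ cap ≤ l) ⟨cap, Or.inr le_rfl⟩ with h1 | h1
  · exact h1
  · exact absurd h1 (not_le.2 h)

noncomputable def dd (D : DC) (x : Col) : TH := ⟨d D x, Nat.lt_succ_of_le (d_le_cap D x)⟩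

theorem bl_one : Bl 1 1 := by simp [Bl]

noncomputable def rel (x y : Col) : NN :=
  if h : ∃ n : NN, n.1 • x = y then h.choose else ⟨1, bl_one⟩

theorem rel_eq {x y : Col} {n : Heis} (hn : Bl 1 n) (h : n • x = y) : (rel x y).1 = n := by
  have hex : ∃ n : NN, n.1 • x = y := ⟨⟨n, hn⟩, h⟩
  unfold rel
  rw [dif_pos hex]
  exact free _ _ x hex.choose.2 hn (hex.choose_spec.trans h.symm)

/-! ### values and the rule -/

structure Fl where
  a0 : Bool
  a1 : Bool
  b0 : Bool
  b1 : Bool

structure Ctrl where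
  dc : DC
  sp : Bool
  last : Bool
  fl : Fl

inductive Kind where
  | O (j : Comp) (n : NN) (t : Fin 5)
  | Pst (left : Bool) (y : Col)

inductive Fid where
  | exec
  | blank
  | copy
  | req (x : Col)
  | move (n : NN)
  | pick (κ : Kind) (dD dE : TH)
  | eval (j : Comp) (n : NN)

inductive Val where
  | blank
  | role (p : Rl)
  | dig (D : Ctrl)
  | fid (f : Fid)
  | req (x : Col)

instance : Finite Fl := Finite.of_equiv _ (proxy_equiv% Fl)
instance : Finite Ctrl := Finite.of_equiv _ (proxy_equiv% Ctrl)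
instance : Finite Kind := Finite.of_equiv _ (proxy_equiv% Kind)
instance : Finite Fid := Finite.of_equiv _ (proxy_equiv% Fid)
instance : Finite Val := Finite.of_equiv _ (proxy_equiv% Val)

def eps (s : ℤ) (f0 f1 : Bool) : ℤ :=
  if s = 1 ∧ f1 = true then 1 else if s = -1 ∧ f0 = true then -1 else 0

def mv (n : Heis) (p : Rl) (D : Ctrl) : Heis :=
  if D.sp = true ∧ p.val = 1 then ⟨0, 0, eps n.b D.fl.b0 D.fl.b1⟩ * n
  else if D.sp = true ∧ p.val = 2 then ⟨0, 0, -eps n.a D.fl.a0 D.fl.a1⟩ * n
  else n

def getFl : Val → Fl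
  | .dig D => D.fl
  | _ => ⟨false, false, false, false⟩

noncomputable def nfl (c : Heis) (last : Bool) (f : Fl) : Fl :=
  ⟨decide (c.a = 0) && (last || f.a0), decide (c.a = kk - 1) && (last || f.a1),
    decide (c.b = 0) && (last || f.b0), decide (c.b = kk - 1) && (last || f.b1)⟩

noncomputable def upd (n : Heis) (p : Rl) (D : Ctrl) (v : Val) : Ctrl :=
  ⟨dact (mv n p D) D.dc, D.sp, D.last, nfl (dact (mv n p D) D.dc).1.1 D.last (getFl v)⟩

def masked : Slot → Bool
  | .cD _ => false
  | .W _ => false
  | .RqL _ => false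
  | .RqR _ => false
  | _ => true

abbrev Ins := Fid × (Fin 5 → Src)

def sl (s : Slot) : Src := .own (.slot s)

def cp (σ : Src) : Ins := (.copy, fun _ => σ)
def bl : Ins := (.blank, fun _ => .own .role)
def four (f : Fid) (a b c e : Src) : Ins := (f, ![a, a, b, c, e])

noncomputable def grab (k : ℕ) (s : Slot) (x : Col) (D E : DC) : Ins :=
  if th (d E x) < pt k then bl else if pt k ≤ th (d D x) then cp (sl s) else cp (sl (.W x))

def rq (p : Rl) (y : Col) : Slot := if p.val = 0 then .RqL y else .RqR y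

noncomputable def sg (D : DC) (x : Col) : Src := src (win (th (d D x)))

def hold (p : Rl) (D : DC) (x : Col) : Prop := 9 * (dl p (sg D x) + 1) ≤ len (th (d D x))

def needR (p : Rl) (D : DC) (x : Col) : Prop :=
  p.val + 1 < pos (sg D x) ∧ 9 * (dl p (sg D x) + 1) ≤ len (th (d D x)) + 2

def needL (p : Rl) (D : DC) (x : Col) : Prop :=
  pos (sg D x) < p.val + 1 ∧ 9 * (dl p (sg D x) + 1) ≤ len (th (d D x)) + 2

noncomputable def insS (p : Rl) (D E : DC) : Slot → Ins
  | .St x => if d E x ≤ TT then
      (if d D x ≤ TT then cp (sl (.St x)) else cp (sl (.Res D.2 (rel D.2 x)))) else bl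
  | .Res x n => if d E x ≤ 2 then
      (.exec, fun t => if t = 0 then sl (.IR x n) else sl (.O x n t)) else bl
  | .IR x n => if d E x ≤ 4 then
      four (.eval (cmp p) n) (sl (.O x n 0)) (sl (.O x n 0)) (sl (.cR x)) (sl (.cD x)) else bl
  | .O x n t => four (.pick (.O (cmp p) n t) (dd D x) (dd E x)) (sl (.O x n t)) (sl (.W x))
      (sl (.cR x)) (sl (.cD x))
  | .cR x => grab 0 (.cR x) x D E
  | .cD x => grab 1 (.cD x) x D E
  | .W x => if hold p E x then
      (if pos (sg E x) = p.val + 1 then cp (sl (.St x))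
        else if p.val + 1 < pos (sg E x) then cp (.inR x) else cp (.inL x)) else bl
  | .Pst x y => four (.pick (.Pst (decide (p.val = 0)) y) (dd D x) (dd E x)) (sl (.Pst x y))
      (sl (.W x)) (sl (.cR x)) (sl (.cD x))
  | .P y => cp (sl (.Pst E.2 y))
  | .Qst x y => grab (wi (sl (rq p y))) (.Qst x y) x D E
  | .RqL x => if needL p E x then
      (if p.val = 0 then cp (sl (.Qst x (chn (sg E x)))) else (.req x, fun _ => .own .role)) else bl
  | .RqR x => if needR p E x then
      (if p.val = B - 1 then cp (sl (.Qst x (chn (sg E x)))) else (.req x, fun _ => .own .role))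
      else bl

noncomputable def ins (p : Rl) (D : Ctrl) (n : NN) : Comp → Ins
  | .role => cp (.own .role)
  | .dig => four (.move n) (sl (.cD (dact (mv n.1 p D) D.dc).2)) (.own .role) (.own .role)
      (.own .dig)
  | .slot s => if p.val = 3 ∧ masked s = true then bl
      else insS p D.dc (dact (mv n.1 p D) D.dc) s

noncomputable def expo (left : Bool) (p : Rl) (y : Col) : Slot :=
  if (left = true ∧ p.val = 0) ∨ (left = false ∧ p.val = B - 1) then .P y else .W y

noncomputable def ksrc : Kind → Rl → Ctrl → Src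
  | .O j n t, p, D => (ins p D n j).2 t
  | .Pst left y, p, _ => sl (expo left p y)

noncomputable def app : Val → Val → Val → Val → Val → Val
  | .fid .copy, a, _, _, _ => a
  | .fid (.req x), _, _, _, _ => .req x
  | .fid (.move n), a, _, .role p, .dig D => .dig (upd n.1 p D a)
  | .fid (.pick κ dD dE), a, b, .role p, .dig D =>
      if th dE < pt (wi (ksrc κ p D)) then .blank
      else if pt (wi (ksrc κ p D)) ≤ th dD then a else b
  | .fid (.eval j n), a, _, .role p, .dig D =>
      if (ins p D n j).1 = .exec then a else .fid (ins p D n j).1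
  | _, _, _, _, _ => .blank

abbrev Env := Src → Val

noncomputable def pk' (κ : Kind) (Φ : Env) (t : ℕ) : Val → Val → Val
  | .role p, .dig D => if pt (wi (ksrc κ p D)) ≤ t then Φ (ksrc κ p D) else .blank
  | _, _ => .blank

noncomputable def pk (κ : Kind) (Φ : Env) (t : ℕ) : Val :=
  pk' κ Φ t (Φ (.own .role)) (Φ (.own .dig))

noncomputable def opd (κ : Kind) (Φ : Env) : Val := pk κ Φ LL

noncomputable def ev (j : Comp) (n : NN) (Φ : Env) : Val :=
  app (.fid (.eval j n)) (opd (.O j n 0) Φ) .blank (Φ (.own .role)) (Φ (.own .dig))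

noncomputable def step (n : NN) (Φ : Env) (j : Comp) : Val :=
  app (ev j n Φ) (opd (.O j n 1) Φ) (opd (.O j n 2) Φ) (opd (.O j n 3) Φ) (opd (.O j n 4) Φ)

def rd (v : Val) (ex : Col → Val) : Val :=
  match v with
  | .req y => ex y
  | _ => .blank

theorem pk_full (κ : Kind) (Φ : Env) {t : ℕ} (h : LL ≤ t) : pk κ Φ t = opd κ Φ := by
  unfold opd pk
  cases Φ (.own .role) <;> cases Φ (.own .dig) <;> simp only [pk']
  rw [if_pos ((pt_le (wi_lt _)).trans h), if_pos (pt_le (wi_lt _))]

theorem opd_eq (κ : Kind) {Φ : Env} {p : Rl} {D : Ctrl} (h1 : Φ (.own .role) = .role p)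
    (h2 : Φ (.own .dig) = .dig D) : opd κ Φ = Φ (ksrc κ p D) := by
  unfold opd pk
  rw [h1, h2]
  simp only [pk']
  rw [if_pos (pt_le (wi_lt _))]

theorem step_eq (n : NN) {Φ : Env} {p : Rl} {D : Ctrl} (h1 : Φ (.own .role) = .role p)
    (h2 : Φ (.own .dig) = .dig D) (j : Comp) :
    step n Φ j = app (if (ins p D n j).1 = .exec then Φ ((ins p D n j).2 0)
      else .fid (ins p D n j).1) (Φ ((ins p D n j).2 1)) (Φ ((ins p D n j).2 2))
      (Φ ((ins p D n j).2 3)) (Φ ((ins p D n j).2 4)) := by
  unfold step ev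
  rw [opd_eq _ h1 h2, opd_eq _ h1 h2, opd_eq _ h1 h2, opd_eq _ h1 h2, opd_eq _ h1 h2, h1, h2]
  rfl

theorem step_blank (n : NN) (j : Comp) : step n (fun _ => .blank) j = .blank := rfl

end H650Z.Min
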