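import Pool.Agent.H650Z.MinFam

set_option autoImplicit false

/-! Families of rows with polynomially many words give subshifts of zero entropy. -/

namespace H650Z.Min

open Classical Filter

namespace TFam

variable {G A : Type} [Group G] (F : TFam G A)

def Low : Prop := ∃ D : ℕ, ∀ m : ℕ, ∃ (T : Type) (_ : Finite T) (N0 : ℕ) (code : ℕ → G → ℤ → T),
  Nat.card T ≤ D ^ (m + 1) ∧ ∀ N N', N0 ≤ N → N0 ≤ N' → ∀ h h' (s s' : ℤ),
    code N h s = code N' h' s' → ∀ j : ℤ, 0 ≤ j → j < 2 ^ m → F.row N h (s + j) = F.row N' h' (s' + j)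

theorem Low.map {A' : Type} {F : TFam G A} (H : F.Low) (e : A → A') (he : Function.Injective e) :
    (F.map e he).Low := by
  obtain ⟨D, H⟩ := H
  refine ⟨D, fun m => ?_⟩
  obtain ⟨T, hT, N0, code, h1, h2⟩ := H m
  exact ⟨T, hT, N0, code, h1, fun N N' a b h h' s s' c j d f =>
    congrArg e (h2 N N' a b h h' s s' c j d f)⟩

theorem Low.count {F : TFam G A} (H : F.Low) : ∃ D : ℕ, ∀ n : ℕ,
    Set.ncard {u : Fin n → A | ∃ x ∈ F.X, ∀ j : Fin n, u j = x (j.val : ℤ)} ≤
      D ^ (Nat.log 2 n + 2) := by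
  obtain ⟨D, H⟩ := H
  refine ⟨D, fun n => ?_⟩
  obtain ⟨T, hT, N0, code, h1, h2⟩ := H (Nat.log 2 n + 1)
  have hn : n < 2 ^ (Nat.log 2 n + 1) := Nat.lt_pow_succ_log_self (by omega) n
  refine le_trans ?_ h1
  have key : ∀ u : {u : Fin n → A | ∃ x ∈ F.X, ∀ j : Fin n, u j = x (j.val : ℤ)},
      ∃ p : ℕ × G × ℤ, N0 ≤ p.1 ∧ ∀ j : Fin n, u.1 j = F.row p.1 p.2.1 (p.2.2 + j.val) := by
    rintro ⟨u, x, hx, hu⟩
    obtain ⟨N, hN, h, t, hh⟩ := F.mtch hx 0 n N0
    refine ⟨(N, h, t), hN, fun j => ?_⟩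
    have := hh j.val (by
      rw [abs_of_nonneg (Nat.cast_nonneg _)]
      exact_mod_cast j.2.le)
    rw [zero_add] at this
    exact (hu j).trans this
  choose p hp1 hp2 using key
  rw [← Nat.card_coe_set_eq]
  refine Nat.card_le_card_of_injective (fun u => code (p u).1 (p u).2.1 (p u).2.2) ?_
  intro u v huv
  apply Subtype.ext
  funext j
  rw [hp2 u j, hp2 v j]
  refine h2 _ _ (hp1 u) (hp1 v) _ _ _ _ huv _ (Nat.cast_nonneg _) ?_
  exact_mod_cast j.2.trans hn

theorem Low.entropy {F : TFam G A} (H : F.Low) :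
    Tendsto (fun n : ℕ =>
      Real.log (Set.ncard {u : Fin n → A | ∃ x ∈ F.X, ∀ j : Fin n, u j = x (j.val : ℤ)}) / n)
      atTop (nhds 0) := by
  obtain ⟨D, hD⟩ := H.count
  have h2 : 0 < Real.log 2 := Real.log_pos (by norm_num)
  have t1 : Tendsto (fun n : ℕ => Real.log n / n) atTop (nhds 0) :=
    Real.isLittleO_log_id_atTop.tendsto_div_nhds_zero.comp tendsto_natCast_atTop_atTop
  have t2 : Tendsto (fun n : ℕ => (2 : ℝ) / n) atTop (nhds 0) := tendsto_const_div_atTop_nhds_zero_nat 2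
  have t3 := ((t1.div_const (Real.log 2)).add t2).mul_const (Real.log (D + 1 : ℕ))
  rw [zero_div, zero_add, zero_mul] at t3
  refine squeeze_zero' (Eventually.of_forall fun n => ?_) ?_ t3
  · exact div_nonneg (Real.log_natCast_nonneg _) (Nat.cast_nonneg _)
  · filter_upwards [eventually_gt_atTop 0] with n hn
    have hn' : (0 : ℝ) < n := by exact_mod_cast hn
    have e1 : (Nat.log 2 n : ℝ) * Real.log 2 ≤ Real.log n := by
      rw [← Real.log_pow]
      apply Real.log_le_log (by positivity)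
      exact_mod_cast Nat.pow_log_le_self 2 hn.ne'
    have e2 : (Nat.log 2 n : ℝ) ≤ Real.log n / Real.log 2 := by rwa [le_div_iff₀ h2]
    have e3 : 0 ≤ Real.log (D + 1 : ℕ) := Real.log_natCast_nonneg _
    have e4 : ∀ c : ℕ, c ≤ D ^ (Nat.log 2 n + 2) →
        Real.log c ≤ (Nat.log 2 n + 2 : ℕ) * Real.log (D + 1 : ℕ) := by
      intro c hc
      rcases Nat.eq_zero_or_pos c with rfl | hc0
      · rw [Nat.cast_zero, Real.log_zero]; positivity
      · rw [← Real.log_pow]
        apply Real.log_le_log (by exact_mod_cast hc0)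
        exact_mod_cast hc.trans (Nat.pow_le_pow_left (Nat.le_succ D) _)
    rw [div_le_iff₀ hn']
    refine (e4 _ (hD n)).trans ?_
    have e5 : (Real.log n / n / Real.log 2 + 2 / n) * Real.log (D + 1 : ℕ) * n =
        (Real.log n / Real.log 2 + 2) * Real.log (D + 1 : ℕ) := by
      field_simp
    rw [e5]
    apply mul_le_mul_of_nonneg_right _ e3
    push_cast
    linarith

end TFam

end H650Z.Min
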