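import Pool.Agent.H650Z.MinMain
import Pool.Agent.H650Z.MinLow

set_option autoImplicit false

/-! The rows with Heisenberg time have polynomially many words. -/

namespace H650Z.Min

open Classical H593Z.Sim H593Z.Sim.Heis

instance : Finite Src := Finite.of_equiv _ (proxy_equiv% Src)

instance : Finite {g : Heis // Bl 3 g} := by
  apply finite_bdd 100
  rintro u ⟨h1, h2, h3⟩
  have e1 : |u.a * u.b| ≤ 3 * 3 := by
    rw [abs_mul]; exact mul_le_mul h1 h2 (abs_nonneg _) (by norm_num)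
  rw [abs_le] at h1 h2 h3 e1
  push_cast at h1 h2 h3
  refine ⟨?_, ?_, ?_⟩ <;> rw [abs_le] <;> constructor <;> linarith

noncomputable def KK : ℕ := 7 * (RR + 1)

theorem KK_cast : (KK : ℤ) = kk := by rw [kk_def, KK]; push_cast; rfl

abbrev Blk (m : ℕ) : Type :=
  (ZMod (KK ^ (3 * m + 1)) × ZMod (KK ^ (3 * m + 1)) × ZMod (KK ^ (3 * m + 1))) ×
    ({g : Heis // Bl 3 g} → Env)

noncomputable def blk (m N : ℕ) (h : Heis) (J : ℤ) : Blk m :=
  (((h * (sys N m).f J).a, (h * (sys N m).f J).b, (h * (sys N m).f J).c),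
    fun g => (sys N m).Φ J (g.1 * tm m (h * (sys N m).f J)))

theorem blk_det {m N N' : ℕ} (hN : m ≤ N) (hN' : m ≤ N') {h h' : Heis} {J J' : ℤ}
    (e : blk m N h J = blk m N' h' J') (r : ℤ) (r1 : 0 ≤ r) (r2 : r < (B : ℤ) ^ m) :
    rowL N 0 h ((B : ℤ) ^ m * J + r) = rowL N' 0 h' ((B : ℤ) ^ m * J' + r) := by
  unfold blk at e
  simp only [Prod.mk.injEq, ZMod.intCast_eq_intCast_iff_dvd_sub] at e
  obtain ⟨⟨ea, eb, ec⟩, eΦ⟩ := e
  rw [Nat.cast_pow, KK_cast] at ea eb ec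
  have e0 : h' * (sys N' m).f J' =
      h * (sys N m).f J * ((h * (sys N m).f J)⁻¹ * (h' * (sys N' m).f J')) := by group
  refine (descend h h' m hN hN' J J' _ _ rfl e0 ?_ (fun g hg => ?_) r r1 r2).symm
  · generalize h * (sys N m).f J = G at *
    generalize h' * (sys N' m).f J' = G' at *
    refine ⟨?_, ?_, ?_⟩
    · rwa [show (G⁻¹ * G').a = G'.a - G.a by simp only [mul_a, inv_a]; ring]
    · rwa [show (G⁻¹ * G').b = G'.b - G.b by simp only [mul_b, inv_b]; ring]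
    · rw [show (G⁻¹ * G').c = G'.c - G.c - G.a * (G'.b - G.b) by
        simp only [mul_c, inv_c, inv_a]; ring]
      exact ec.sub (eb.mul_left G.a)
  · rw [← e0]
    exact (congrFun eΦ ⟨g, hg⟩).symm

theorem fam_low : fam.Low := by
  have hB := B_def
  have hK : 1 ≤ KK := by unfold KK; omega
  have i0 : Nonempty ({g : Heis // Bl 3 g} → Env) := ⟨fun _ _ => .blank⟩
  have hC : 1 ≤ Nat.card ({g : Heis // Bl 3 g} → Env) := Nat.card_pos
  refine ⟨B * KK ^ 18 * Nat.card ({g : Heis // Bl 3 g} → Env) ^ 2, fun m => ?_⟩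
  have i1 : NeZero (B ^ m) := ⟨pow_ne_zero _ (by omega)⟩
  have i2 : NeZero (KK ^ (3 * m + 1)) := ⟨by positivity⟩
  have hP : (0 : ℤ) < (B : ℤ) ^ m := pow_pos B_pos m
  refine ⟨ZMod (B ^ m) × Blk m × Blk m, inferInstance, m, fun N h s =>
    (s, blk m (top N) h (s / (B : ℤ) ^ m), blk m (top N) h (s / (B : ℤ) ^ m + 1)), ?_, ?_⟩
  · simp only [Nat.card_prod, Nat.card_zmod]
    generalize Nat.card ({g : Heis // Bl 3 g} → Env) = C at *
    have a1 : B ^ m ≤ B ^ (m + 1) := Nat.pow_le_pow_right (by omega) (by omega)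
    have a2 : KK ^ (6 * (3 * m + 1)) ≤ KK ^ (18 * (m + 1)) := Nat.pow_le_pow_right hK (by omega)
    have a3 : C ^ 2 ≤ C ^ (2 * (m + 1)) := Nat.pow_le_pow_right hC (by omega)
    calc _ = B ^ m * KK ^ (6 * (3 * m + 1)) * C ^ 2 := by ring
      _ ≤ B ^ (m + 1) * KK ^ (18 * (m + 1)) * C ^ (2 * (m + 1)) := by gcongr
      _ = _ := by rw [mul_pow, mul_pow, ← pow_mul, ← pow_mul]
  · intro N N' hN hN' h h' s s' e j j1 j2
    simp only [Prod.mk.injEq, ZMod.intCast_eq_intCast_iff'] at e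
    obtain ⟨e1, e2, e3⟩ := e
    rw [Nat.cast_pow] at e1
    have b1 := Int.mul_ediv_add_emod s ((B : ℤ) ^ m)
    have b2 := Int.mul_ediv_add_emod s' ((B : ℤ) ^ m)
    have b3 := Int.emod_nonneg s hP.ne'
    have b4 := Int.emod_lt_of_pos s hP
    have b5 : (2 : ℤ) ^ m ≤ (B : ℤ) ^ m := pow_le_pow_left₀ (by norm_num) (by omega) m
    have n1 := hN.trans (le_top N)
    have n2 := hN'.trans (le_top N')
    show rowL (top N) 0 h (s + j) = rowL (top N') 0 h' (s' + j)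
    by_cases hj : s % (B : ℤ) ^ m + j < (B : ℤ) ^ m
    · have := blk_det n1 n2 e2 _ (by omega) hj
      convert this using 2 <;> linarith
    · have := blk_det n1 n2 e3 (s % (B : ℤ) ^ m + j - (B : ℤ) ^ m) (by omega) (by omega)
      convert this using 2 <;> linarith

theorem exists_fam_low : ∃ (k : ℕ) (F : TFam Heis (Fin k)), F.Low ∧ ∀ n : ℕ, 0 < n →
    ∃ N0 Λ : ℕ, ∀ N, N0 ≤ N → ∀ h (s : ℤ),
      ∃ j : ℤ, |j| ≤ Λ ∧ F.row N (z ^ n * h) (s + j) ≠ F.row N h (s + j) := by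
  obtain ⟨k, ⟨e⟩⟩ := Finite.exists_equiv_fin (Comp → Val)
  refine ⟨k, fam.map e e.injective, fam_low.map e e.injective, fun n hn => ?_⟩
  obtain ⟨N0, Λ, H⟩ := z_moves hn
  refine ⟨N0, Λ, fun N hN h s => ?_⟩
  obtain ⟨j, h1, h2⟩ := H N hN h s
  exact ⟨j, h1, fun he => h2 (e.injective he)⟩

end H650Z.Min
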