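import Mathlib

set_option autoImplicit false

/-!
From a family of rows on which a group acts by local rules, with uniformly recurrent words,
to a minimal subshift on which the group acts by automorphisms.
-/

namespace H650Z.Min

open Classical

structure TFam (G A : Type) [Group G] where
  row : ℕ → G → ℤ → A
  loc : ∀ g, ∃ r : ℕ, ∀ N h N' h' (n n' : ℤ),
    (∀ j : ℤ, |j| ≤ r → row N h (n + j) = row N' h' (n' + j)) →
      row N (g * h) n = row N' (g * h') n'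
  recur : ∀ L : ℕ, ∃ (w : ℤ → A) (N0 Λ : ℕ), ∀ N, N0 ≤ N → ∀ h (s : ℤ),
    ∃ t : ℤ, s ≤ t ∧ t ≤ s + Λ ∧ ∀ j : ℤ, |j| ≤ L → row N h (t + j) = w j

namespace TFam

variable {G A : Type} [Group G] (F : TFam G A)

def map {A' : Type} (e : A → A') (he : Function.Injective e) : TFam G A' where
  row := fun N h n => e (F.row N h n)
  loc := fun g => by
    obtain ⟨r, hr⟩ := F.loc g
    exact ⟨r, fun N h N' h' n n' hh => congrArg e (hr N h N' h' n n' fun j hj => he (hh j hj))⟩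
  recur := fun L => by
    obtain ⟨w, N0, Λ, hw⟩ := F.recur L
    refine ⟨fun j => e (w j), N0, Λ, fun N hN h s => ?_⟩
    obtain ⟨t, h1, h2, h3⟩ := hw N hN h s
    exact ⟨t, h1, h2, fun j hj => congrArg e (h3 j hj)⟩

def Rec (x : ℤ → A) (L : ℕ) : Prop :=
  ∃ N0 Λ : ℕ, ∀ N, N0 ≤ N → ∀ h (s : ℤ),
    ∃ t : ℤ, s ≤ t ∧ t ≤ s + Λ ∧ ∀ j : ℤ, |j| ≤ L → F.row N h (t + j) = x j

def X : Set (ℤ → A) := {x | ∀ L, F.Rec x L}

theorem shift_mem {x : ℤ → A} (hx : x ∈ F.X) (v : ℤ) : (fun n => x (n + v)) ∈ F.X := by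
  intro L
  obtain ⟨N0, Λ, h⟩ := hx (L + v.natAbs)
  refine ⟨N0, Λ, fun N hN g s => ?_⟩
  obtain ⟨t, h1, h2, h3⟩ := h N hN g (s - v)
  refine ⟨t + v, by omega, by omega, fun j hj => ?_⟩
  have := h3 (j + v) (by
    have := abs_add_le j v
    push_cast
    omega)
  show _ = x (j + v)
  rw [← this]
  congr 1
  ring

theorem mtch {x : ℤ → A} (hx : x ∈ F.X) (n : ℤ) (k N0 : ℕ) :
    ∃ N, N0 ≤ N ∧ ∃ h t, ∀ j : ℤ, |j| ≤ k → x (n + j) = F.row N h (t + j) := by
  obtain ⟨N1, Λ, h⟩ := F.shift_mem hx n k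
  obtain ⟨t, -, -, h3⟩ := h (max N0 N1) (le_max_right _ _) 1 0
  exact ⟨max N0 N1, le_max_left _ _, 1, t, fun j hj => by rw [h3 j hj, add_comm]⟩

noncomputable def rad (g : G) : ℕ := (F.loc g).choose

noncomputable def f (g : G) (x : ℤ → A) : A :=
  if h : ∃ p : ℕ × G × ℤ, ∀ j : ℤ, |j| ≤ F.rad g → x j = F.row p.1 p.2.1 (p.2.2 + j) then
    F.row h.choose.1 (g * h.choose.2.1) h.choose.2.2
  else x 0

theorem f_eq {g : G} {x : ℤ → A} {N : ℕ} {h : G} {s : ℤ}
    (hh : ∀ j : ℤ, |j| ≤ F.rad g → x j = F.row N h (s + j)) : F.f g x = F.row N (g * h) s := by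
  have hex : ∃ p : ℕ × G × ℤ, ∀ j : ℤ, |j| ≤ F.rad g → x j = F.row p.1 p.2.1 (p.2.2 + j) :=
    ⟨(N, h, s), hh⟩
  unfold f
  rw [dif_pos hex]
  exact (F.loc g).choose_spec _ _ _ _ _ _ fun j hj => (hex.choose_spec j hj).symm.trans (hh j hj)

theorem f_congr {g : G} {x y : ℤ → A} (h : ∀ j : ℤ, |j| ≤ F.rad g → x j = y j) :
    F.f g x = F.f g y := by
  by_cases hex : ∃ p : ℕ × G × ℤ, ∀ j : ℤ, |j| ≤ F.rad g → x j = F.row p.1 p.2.1 (p.2.2 + j)
  · obtain ⟨p, hp⟩ := hex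
    rw [F.f_eq hp, F.f_eq fun j hj => (h j hj).symm.trans (hp j hj)]
  · unfold f
    rw [dif_neg hex, dif_neg, h 0 (by simp)]
    rintro ⟨p, hp⟩
    exact hex ⟨p, fun j hj => (h j hj).trans (hp j hj)⟩

noncomputable def a (g : G) (x : ℤ → A) (n : ℤ) : A := F.f g fun j => x (n + j)

theorem a_eq {g : G} {x : ℤ → A} {n : ℤ} {k : ℕ} {N : ℕ} {h : G} {s : ℤ}
    (hh : ∀ j : ℤ, |j| ≤ ((k + F.rad g : ℕ) : ℤ) → x (n + j) = F.row N h (s + j)) {j : ℤ}
    (hj : |j| ≤ k) : F.a g x (n + j) = F.row N (g * h) (s + j) := by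
  apply F.f_eq
  intro i hi
  have := hh (j + i) (by
    have := abs_add_le j i
    push_cast
    omega)
  rw [← add_assoc, ← add_assoc] at this
  exact this

theorem a_mem (g : G) {x : ℤ → A} (hx : x ∈ F.X) : F.a g x ∈ F.X := by
  intro L
  obtain ⟨N0, Λ, h⟩ := hx (L + F.rad g)
  refine ⟨N0, Λ, fun N hN k s => ?_⟩
  obtain ⟨t, h1, h2, h3⟩ := h N hN (g⁻¹ * k) s
  refine ⟨t, h1, h2, fun j hj => ?_⟩
  have := F.a_eq (n := 0) (x := x) (s := t) (N := N) (h := g⁻¹ * k)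
    (fun i hi => by rw [zero_add]; exact (h3 i hi).symm) hj
  rw [zero_add, mul_inv_cancel_left] at this
  exact this.symm

theorem a_one {x : ℤ → A} (hx : x ∈ F.X) : F.a 1 x = x := by
  funext n
  obtain ⟨N, -, h, t, hh⟩ := F.mtch hx n (0 + F.rad 1) 0
  have h1 := F.a_eq hh (j := 0) (by simp)
  rw [one_mul, ← hh 0 (by simp)] at h1
  simpa using h1

theorem a_mul (g k : G) {x : ℤ → A} (hx : x ∈ F.X) : F.a (g * k) x = F.a g (F.a k x) := by
  funext n
  obtain ⟨N, -, h, t, hw⟩ := F.mtch hx n (F.rad (g * k) + (F.rad g + F.rad k)) 0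
  have h1 := F.a_eq (g := g * k) (k := 0) (fun j hj => hw j (by push_cast at hj ⊢; omega))
    (j := 0) (by simp)
  have h2 : ∀ j : ℤ, |j| ≤ ((0 + F.rad g : ℕ) : ℤ) →
      F.a k x (n + j) = F.row N (k * h) (t + j) :=
    fun j hj => F.a_eq (g := k) (k := F.rad g) (fun j hj => hw j (by push_cast at hj ⊢; omega))
      (by simpa using hj)
  have h3 := F.a_eq h2 (j := 0) (by simp)
  rw [← mul_assoc, ← h1] at h3
  simpa using h3.symm

theorem a_shift (g : G) (x : ℤ → A) (v n : ℤ) :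
    F.a g (fun n => x (n + v)) n = F.a g x (n + v) := by
  unfold a
  simp only [add_right_comm]

noncomputable def rho : G →* Equiv.Perm F.X where
  toFun g :=
    { toFun := fun x => ⟨F.a g x.1, F.a_mem g x.2⟩
      invFun := fun x => ⟨F.a g⁻¹ x.1, F.a_mem g⁻¹ x.2⟩
      left_inv := fun x => Subtype.ext (by
        show F.a g⁻¹ (F.a g x.1) = x.1
        rw [← F.a_mul _ _ x.2, inv_mul_cancel, F.a_one x.2])
      right_inv := fun x => Subtype.ext (by
        show F.a g (F.a g⁻¹ x.1) = x.1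
        rw [← F.a_mul _ _ x.2, mul_inv_cancel, F.a_one x.2]) }
  map_one' := Equiv.ext fun x => Subtype.ext (F.a_one x.2)
  map_mul' := fun g h => Equiv.ext fun x => Subtype.ext (F.a_mul g h x.2)

theorem rho_val (g : G) (x : F.X) : (F.rho g x).1 = F.a g x.1 := rfl

theorem a_ne {g : G} (hg : ∃ N0 Λ : ℕ, ∀ N, N0 ≤ N → ∀ h (s : ℤ),
    ∃ j : ℤ, |j| ≤ Λ ∧ F.row N (g * h) (s + j) ≠ F.row N h (s + j)) {x : ℤ → A} (hx : x ∈ F.X) :
    F.a g x ≠ x := by
  obtain ⟨N0, Λ, hg⟩ := hg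
  intro he
  obtain ⟨N, hN, h, t, hw⟩ := F.mtch hx 0 (Λ + F.rad g) N0
  obtain ⟨j, hj, hne⟩ := hg N hN h t
  apply hne
  rw [← F.a_eq hw hj, he, hw j (by push_cast; omega)]

theorem orbit {x y : ℤ → A} (hx : x ∈ F.X) (hy : y ∈ F.X) (L : ℕ) :
    ∃ m : ℤ, ∀ j : ℤ, |j| ≤ L → x (j + m) = y j := by
  obtain ⟨N0, Λ, h⟩ := hy L
  obtain ⟨N, hN, g, t, hw⟩ := F.mtch hx 0 (L + Λ) N0
  obtain ⟨t', h1, h2, h3⟩ := h N hN g t
  refine ⟨t' - t, fun j hj => ?_⟩
  have := hw (j + (t' - t)) (by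
    rw [abs_le] at hj ⊢
    push_cast
    constructor <;> omega)
  rw [zero_add] at this
  rw [this, ← h3 j hj]
  congr 1
  ring

section top

variable [TopologicalSpace A] [DiscreteTopology A]

theorem cyl_clopen (r : ℕ) (S : Set (ℤ → A))
    (hS : ∀ x y : ℤ → A, (∀ j : ℤ, |j| ≤ r → x j = y j) → x ∈ S → y ∈ S) : IsClosed S := by
  have h1 : S = (fun x : ℤ → A => fun j : Finset.Icc (-(r : ℤ)) r => x j.1) ⁻¹'
      ((fun x : ℤ → A => fun j : Finset.Icc (-(r : ℤ)) r => x j.1) '' S) := by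
    ext x
    constructor
    · intro hx
      exact ⟨x, hx, rfl⟩
    · rintro ⟨y, hy, he⟩
      refine hS y x (fun j hj => ?_) hy
      exact congrFun he ⟨j, Finset.mem_Icc.2 (abs_le.1 hj)⟩
  rw [h1]
  exact (isClosed_discrete _).preimage (continuous_pi fun j => continuous_apply _)

theorem a_cont (g : G) (n : ℤ) : Continuous fun x : ℤ → A => F.a g x n := by
  rw [continuous_discrete_rng]
  intro b
  rw [← isClosed_compl_iff]
  apply cyl_clopen (F.rad g + n.natAbs)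
  intro x y hxy hx
  have : F.a g x n = F.a g y n := by
    apply F.f_congr
    intro j hj
    apply hxy
    have := abs_add_le n j
    push_cast
    omega
  simpa [this] using hx

theorem rho_cont (g : G) : Continuous (F.rho g) := by
  apply Continuous.subtype_mk
  exact continuous_pi fun n => (F.a_cont g n).comp continuous_subtype_val

theorem rec_closed (L : ℕ) : IsClosed {x : ℤ → A | F.Rec x L} := by
  apply cyl_clopen L
  rintro x y hxy ⟨N0, Λ, h⟩
  refine ⟨N0, Λ, fun N hN g s => ?_⟩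
  obtain ⟨t, h1, h2, h3⟩ := h N hN g s
  exact ⟨t, h1, h2, fun j hj => (h3 j hj).trans (hxy j hj)⟩

omit [TopologicalSpace A] [DiscreteTopology A] in
theorem X_eq : F.X = ⋂ L : ℕ, {x : ℤ → A | F.Rec x L} := by
  ext x
  simp [X]

theorem X_closed : IsClosed F.X := by
  rw [X_eq]
  exact isClosed_iInter F.rec_closed

theorem X_nonempty [Finite A] : F.X.Nonempty := by
  rw [X_eq]
  apply IsCompact.nonempty_iInter_of_sequence_nonempty_isCompact_isClosed
  · rintro L x ⟨N0, Λ, h⟩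
    refine ⟨N0, Λ, fun N hN g s => ?_⟩
    obtain ⟨t, h1, h2, h3⟩ := h N hN g s
    exact ⟨t, h1, h2, fun j hj => h3 j (by push_cast; omega)⟩
  · intro L
    obtain ⟨w, hw⟩ := F.recur L
    exact ⟨w, hw⟩
  · exact (F.rec_closed 0).isCompact
  · exact F.rec_closed

theorem X_minimal {x : ℤ → A} (hx : x ∈ F.X) :
    F.X ⊆ closure {y : ℤ → A | ∃ m : ℤ, y = fun n => x (n + m)} := by
  intro y hy
  choose m hm using F.orbit hx hy
  apply mem_closure_of_tendsto (b := Filter.atTop) (f := fun L : ℕ => fun n => x (n + m L))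
  · rw [tendsto_pi_nhds]
    intro n
    apply tendsto_const_nhds.congr'
    filter_upwards [Filter.eventually_ge_atTop n.natAbs] with L hL
    exact (hm L n (by rw [← Int.natCast_natAbs]; exact_mod_cast hL)).symm
  · exact Filter.Eventually.of_forall fun L => ⟨m L, rfl⟩

end top

end TFam

end H650Z.Min
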