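import Pool.Agent.H650Z.MinTower

set_option autoImplicit false

/-! Powers of the central generator change every long window of every deep row. -/

namespace H650Z.Min

open Classical H593Z.Sim H593Z.Sim.Heis

theorem dig_dil (g γ : Heis) :
    dig kk (g * dil kk γ) = dig kk g ∧ tail kk (g * dil kk γ) = tail kk g * γ := by
  have h := uniq kk_pos (box_dig kk_pos g) (tail kk g * γ)
  rwa [dil_mul, ← mul_assoc, dig_tail] at h

theorem sys_f {N m : ℕ} (h : m < N) (J : ℤ) (p : Rl) :
    (sys N m).f ((B : ℤ) * J + p.val) = (sys N (m + 1)).f J * off m p := by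
  rw [sys_step h]
  simp only [enc]
  rw [cell_div, cell_rl]

theorem sys_Phi {N m : ℕ} (h : m < N) (J : ℤ) (p : Rl) (u : Heis) :
    (sys N m).Φ ((B : ℤ) * J + p.val) u = cell m (sys N (m + 1)) J p u := by
  rw [sys_step h]
  simp only [enc]
  rw [cell_div, cell_rl]

theorem rowL_plain {N m : ℕ} (h : m < N) (J : ℤ) {p : Rl} (h1 : p.val ≠ 1) (h2 : p.val ≠ 2)
    (g : Heis) (j : Comp) : rowL N m g ((B : ℤ) * J + p.val) j =
      env p (mk m (tm m (g * (sys N (m + 1)).f J)))
        (Psi (sys N (m + 1)) J (tm m (g * (sys N (m + 1)).f J)))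
        (Xi (sys N (m + 1)) J (tm m (g * (sys N (m + 1)).f J))) (.own j) := by
  unfold rowL
  rw [sys_f h, sys_Phi h, off_plain h1 h2, mul_one]
  unfold cell
  rw [nu_plain h1 h2]

theorem dc_of_row {N m : ℕ} (h : m < N) (J : ℤ) {p : Rl} (h1 : p.val ≠ 1) (h2 : p.val ≠ 2)
    {g g' : Heis} (e : rowL N m g ((B : ℤ) * J + p.val) = rowL N m g' ((B : ℤ) * J + p.val)) :
    dc (tm m (g * (sys N (m + 1)).f J)) = dc (tm m (g' * (sys N (m + 1)).f J)) := by
  have e1 := congrFun e .dig
  rw [rowL_plain h J h1 h2, rowL_plain h J h1 h2] at e1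
  exact congrArg Ctrl.dc (Val.dig.inj e1)

theorem decode {N m : ℕ} (h : m < N) (J : ℤ) {g g' : Heis}
    (e : ∀ p : Rl, rowL N m g ((B : ℤ) * J + p.val) = rowL N m g' ((B : ℤ) * J + p.val)) :
    rowL N (m + 1) g J = rowL N (m + 1) g' J := by
  funext j
  have hB := B_def
  have hj := (idx j).2
  let p : Rl := ⟨4 + (idx j).val, by omega⟩
  have hp : p.val = 4 + (idx j).val := rfl
  have hc : cmp p = j := by
    have := (pos_eq (p := p) (σ := .own j) (by simp only [pos]; omega)).1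
    exact (Src.own.inj this).symm
  have e1 := dc_of_row h J (by omega) (by omega) (e p)
  have e2 := congrFun (e p) (.slot (.St (dc (tm m (g * (sys N (m + 1)).f J))).2))
  rw [rowL_plain h J (by omega) (by omega), rowL_plain h J (by omega) (by omega)] at e2
  have key : ∀ u : Heis, env p (mk m u) (Psi (sys N (m + 1)) J u) (Xi (sys N (m + 1)) J u)
      (.own (.slot (.St (dc u).2))) = (sys N (m + 1)).Φ J (tail kk u) (.own j) := by
    intro u
    have := env_sl (p := p) (mk m u) (Psi (sys N (m + 1)) J u) (Xi (sys N (m + 1)) J u)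
      (s := .St (dc u).2) (Or.inl (by omega))
    unfold sl at this
    rw [this]
    simp only [valS, mk]
    rw [if_pos (by rw [d_self]; omega), hc]
    unfold Psi
    rw [tile_self]
  rw [key] at e2
  rw [e1, key] at e2
  unfold rowL
  rw [tm_succ, tm_succ]
  exact e2

def zz (n : ℤ) : Heis := ⟨0, 0, n⟩

theorem zdig {n : ℤ} {u : Heis} (h : dig kk (zz n * u) = dig kk u) : kk ^ 2 ∣ n := by
  have h1 := congrArg Heis.c h
  simp only [dig, zz, mul_a, mul_b, mul_c, zero_add, zero_mul, add_zero] at h1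
  have h2 := Int.emod_emod_of_dvd
  rw [Int.emod_eq_emod_iff_emod_sub_eq_zero] at h1
  apply Int.dvd_of_emod_eq_zero
  rw [← h1]
  congr 1
  ring

theorem ztail (n : ℤ) (u : Heis) : tail kk (zz (kk ^ 2 * n) * u) = zz n * tail kk u := by
  have h1 : zz (kk ^ 2 * n) * u = u * dil kk (zz n) := by
    ext <;> simp [zz, dil]
    ring
  rw [h1, (dig_dil u _).2]
  ext <;> simp [zz]
  ring

noncomputable def Lam : ℕ → ℕ
  | 0 => 1
  | j + 1 => B * (Lam j + 1)

theorem Lam_pos : ∀ j, 1 ≤ Lam j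
  | 0 => le_rfl
  | j + 1 => Nat.mul_pos (by have := B_def; omega) (by omega)

theorem z_dvd (N : ℕ) (h h' : Heis) : ∀ (j m : ℕ), m + j ≤ N → ∀ (s n : ℤ),
    (∀ i : ℤ, s ≤ i → i < s + Lam j →
      tm m (h' * (sys N m).f i) = zz n * tm m (h * (sys N m).f i) ∧
        rowL N m h' i = rowL N m h i) → kk ^ (2 * j) ∣ n
  | 0, _, _, _, _, _ => by simp
  | j + 1, m, hm, s, n, H => by
    have hlt : m < N := by omega
    have hB := B_pos
    have hB' := B_def
    have hs1 := Int.mul_ediv_add_emod s B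
    have hs2 := Int.emod_nonneg s hB.ne'
    have hs3 := Int.emod_lt_of_pos s hB
    have inw : ∀ J : ℤ, s / B + 1 ≤ J → J < s / B + 1 + Lam j → ∀ p : Rl,
        s ≤ (B : ℤ) * J + p.val ∧ (B : ℤ) * J + p.val < s + Lam (j + 1) := by
      intro J h1 h2 p
      have h3 : (B : ℤ) * (s / B + 1) ≤ B * J := mul_le_mul_of_nonneg_left h1 hB.le
      have h4 : (B : ℤ) * J ≤ B * (s / B + Lam j) := mul_le_mul_of_nonneg_left (by omega) hB.le
      have h5 : (p.val : ℤ) < B := by exact_mod_cast p.2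
      have h6 : (0 : ℤ) ≤ p.val := by positivity
      simp only [Lam]
      push_cast
      constructor <;> linarith
    let p0 : Rl := ⟨0, by omega⟩
    have hp0 : p0.val = 0 := rfl
    have tme : ∀ J : ℤ, s / B + 1 ≤ J → J < s / B + 1 + Lam j →
        tm m (h' * (sys N (m + 1)).f J) = zz n * tm m (h * (sys N (m + 1)).f J) := by
      intro J h1 h2
      have := (H _ (inw J h1 h2 p0).1 (inw J h1 h2 p0).2).1
      rwa [sys_f hlt, off_plain (by omega) (by omega), mul_one] at this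
    have hL := Lam_pos j
    obtain ⟨n', rfl⟩ : kk ^ 2 ∣ n := by
      have a1 : s / B + 1 < s / B + 1 + Lam j := by omega
      have e1 := dc_of_row hlt (s / B + 1) (p := p0) (by omega) (by omega)
        (H _ (inw _ le_rfl a1 p0).1 (inw _ le_rfl a1 p0).2).2
      rw [tme _ le_rfl a1] at e1
      exact zdig (congrArg (fun D : DC => D.1.1) e1)
    have := z_dvd N h h' j (m + 1) (by omega) (s / B + 1) n' fun J h1 h2 =>
      ⟨by rw [tm_succ, tm_succ, tme J h1 h2, ztail],
        decode hlt J fun p => (H _ (inw J h1 h2 p).1 (inw J h1 h2 p).2).2⟩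
    rw [show 2 * (j + 1) = 2 + 2 * j by ring, pow_add]
    exact mul_dvd_mul_left _ this

theorem z_moves {n : ℕ} (hn : 0 < n) : ∃ N0 Λ : ℕ, ∀ N, N0 ≤ N → ∀ h (s : ℤ),
    ∃ j : ℤ, |j| ≤ Λ ∧ rowL (top N) 0 (z ^ n * h) (s + j) ≠ rowL (top N) 0 h (s + j) := by
  refine ⟨n, Lam n, fun N hN h s => ?_⟩
  by_contra hc
  push Not at hc
  have hz : z ^ n = zz n := by rw [← zpow_natCast, z_zpow]; rfl
  have h1 := z_dvd (top N) h (z ^ n * h) n 0 (by have := le_top N; omega) s n fun i h1 h2 =>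
    ⟨by rw [hz, mul_assoc]; rfl, by
      have := hc (i - s) (by rw [abs_le]; constructor <;> omega)
      rwa [add_sub_cancel] at this⟩
  have h2 := Int.le_of_dvd (by exact_mod_cast hn) h1
  have h3 : (2 : ℤ) ^ (2 * n) ≤ kk ^ (2 * n) := pow_le_pow_left₀ (by norm_num) kk_two _
  have h4 : 2 * n < 2 ^ (2 * n) := Nat.lt_two_pow_self
  have h5 : ((2 * n : ℕ) : ℤ) < 2 ^ (2 * n) := by exact_mod_cast h4
  push_cast at h5
  omega

end H650Z.Min
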