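import Pool.Agent.H650Z.MinDefs

set_option autoImplicit false

/-! Tiles, frames and clocks in the Heisenberg group. -/

namespace H650Z.Min

open Classical H593Z.Sim H593Z.Sim.Heis

theorem kk_def : kk = 7 * ((RR : ℤ) + 1) := rfl
theorem kk_pos : 0 < kk := mm_pos _
theorem kk_two : 2 ≤ kk := by
  have : (0 : ℤ) ≤ RR := Nat.cast_nonneg _
  rw [kk_def]; linarith

theorem bl_le {l l' : ℕ} {g : Heis} (h : Bl l g) (hl : l ≤ l') : Bl l' g := by
  obtain ⟨k1, k2, k3⟩ := h
  have h1 : (l : ℤ) ≤ l' := by exact_mod_cast hl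
  have h2 : (0 : ℤ) ≤ l := Nat.cast_nonneg l
  exact ⟨by linarith, by linarith, by nlinarith⟩

theorem bl_inv {l : ℕ} {g : Heis} (h : Bl l g) : Bl l g⁻¹ := by
  obtain ⟨k1, k2, k3⟩ := h
  refine ⟨by simpa using k1, by simpa using k2, ?_⟩
  rw [← abs_neg]
  convert k3 using 2
  simp; ring

theorem bl_zero : Bl 0 1 := by simp [Bl]

noncomputable def dc (w : Heis) : DC := (⟨dig kk w, box_dig kk_pos w⟩, colH (tail kk w))

theorem dc_mul (g w : Heis) : dc (g * w) = dact g (dc w) := by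
  unfold dc dact
  refine Prod.ext (Subtype.ext (cocycle kk_pos g w).1) ?_
  show colH (tail kk (g * w)) = tail kk (g * dig kk w) • colH (tail kk w)
  rw [(cocycle kk_pos g w).2, colH_mul]

theorem d_col {l : ℕ} {g : Heis} (hg : Bl l g) (w : Heis) :
    d (dc w) (colH (tail kk (g * w))) ≤ l :=
  d_le ⟨g, hg, by rw [← dc_mul]; rfl⟩

theorem d_self (w : Heis) : d (dc w) (dc w).2 = 0 := by
  have := d_col bl_zero w
  rw [one_mul] at this
  exact Nat.le_zero.1 this

theorem d_back {l : ℕ} {g : Heis} (hg : Bl l g) (w : Heis) (x : Col) :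
    d (dc w) x ≤ d (dc (g * w)) x + l := by
  by_cases h : d (dc (g * w)) x < cap
  · obtain ⟨g', hg', hx⟩ := near_d h
    refine d_le ⟨g' * g, bl_mul _ _ _ _ hg' hg, ?_⟩
    rw [← dc_mul, mul_assoc, dc_mul, hx]
  · have := d_le_cap (dc w) x
    omega

theorem d_forth {l : ℕ} {g : Heis} (hg : Bl l g) (w : Heis) (x : Col) :
    d (dc (g * w)) x ≤ d (dc w) x + l := by
  have := d_back (bl_inv hg) (g * w) x
  rwa [inv_mul_cancel_left] at this

noncomputable def tile (w : Heis) (x : Col) : Heis := (rel (dc w).2 x).1 * tail kk w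

theorem tail_near {g : Heis} (hg : Bl RR g) (w : Heis) :
    ∃ n, Bl 1 n ∧ tail kk (g * w) = n * tail kk w :=
  ⟨_, contr RR g _ hg (box_dig kk_pos w), (cocycle kk_pos g w).2⟩

theorem tile_eq {g : Heis} (hg : Bl RR g) (w : Heis) :
    tile w (colH (tail kk (g * w))) = tail kk (g * w) := by
  obtain ⟨n, hn, h⟩ := tail_near hg w
  unfold tile
  rw [rel_eq hn (by rw [h, colH_mul]; rfl), h]

theorem near_tile {w : Heis} {x : Col} (h : d (dc w) x < cap) :
    ∃ g, Bl cap g ∧ colH (tail kk (g * w)) = x ∧ tile w x = tail kk (g * w) := by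
  obtain ⟨g, hg, hx⟩ := near_d h
  rw [← dc_mul] at hx
  have hx' : colH (tail kk (g * w)) = x := hx
  refine ⟨g, bl_le hg h.le, hx', ?_⟩
  rw [← hx']
  exact tile_eq (bl_le hg (by rw [RR_def]; omega)) w

theorem tile_move {g : Heis} (hg : Bl 10 g) {w : Heis} {x : Col} (h : d (dc w) x < cap) :
    tile (g * w) x = tile w x := by
  obtain ⟨g', h1, h2, h3⟩ := near_tile h
  have h4 : g' * w = g' * g⁻¹ * (g * w) := by group
  rw [h3, ← h2, h4]
  exact tile_eq (bl_mul _ _ _ _ h1 (bl_inv hg)) _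

theorem tile_self (w : Heis) : tile w (dc w).2 = tail kk w := by
  have := tile_eq (bl_le bl_zero (Nat.zero_le _)) w
  rwa [one_mul] at this

/-! ### the schedule of special levels -/

def ee : ℕ → ℕ
  | 0 => 1
  | n + 1 => if ee n = 1 then n + 1 else ee n - 1

def sp : ℕ → Bool
  | 0 => false
  | n + 1 => decide (ee n = 1)

def last (n : ℕ) : Bool := decide (ee n = 1)

theorem ee_pos : ∀ n, 1 ≤ ee n
  | 0 => le_rfl
  | n + 1 => by
    have := ee_pos n
    unfold ee
    split_ifs <;> omega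

theorem ee_le : ∀ n, ee n ≤ n + 1
  | 0 => le_rfl
  | n + 1 => by
    have := ee_le n
    unfold ee
    split_ifs <;> omega

theorem ee_sp {m : ℕ} (h : sp m = true) : ee m = m := by
  cases m with
  | zero => simp [sp] at h
  | succ n =>
    simp only [sp, decide_eq_true_eq] at h
    simp [ee, h]

theorem ee_succ {m : ℕ} (h : last m = false) : ee m = ee (m + 1) + 1 := by
  simp only [last, decide_eq_false_iff_not] at h
  have := ee_pos m
  simp only [ee, if_neg h]
  omega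

theorem ee_one : ∀ j n, ee n = j + 1 → ee (n + j) = 1
  | 0, _, h => h
  | j + 1, n, h => by
    have h1 : ee (n + 1) = j + 1 := by
      simp only [ee]
      rw [if_neg (by omega)]
      omega
    have := ee_one j (n + 1) h1
    rwa [show n + 1 + j = n + (j + 1) by omega] at this

def top (n : ℕ) : ℕ := n + (ee n - 1)

theorem last_top (n : ℕ) : last (top n) = true := by
  have := ee_pos n
  simp only [last, decide_eq_true_eq]
  exact ee_one _ _ (by omega)

theorem le_top (n : ℕ) : n ≤ top n := Nat.le_add_right _ _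

theorem sp_top (n : ℕ) : sp (top n + 1) = true := last_top n

/-! ### carry flags -/

noncomputable def fl (m : ℕ) (w : Heis) : Fl :=
  ⟨decide (kk ^ ee m ∣ w.a), decide (kk ^ ee m ∣ w.a + 1), decide (kk ^ ee m ∣ w.b),
    decide (kk ^ ee m ∣ w.b + 1)⟩

theorem dvd_succ0 (e : ℕ) (a : ℤ) : kk ^ (e + 1) ∣ a ↔ a % kk = 0 ∧ kk ^ e ∣ a / kk := by
  have hk := kk_pos
  constructor
  · rintro ⟨c, rfl⟩
    have : kk ^ (e + 1) * c = kk * (kk ^ e * c) := by ring
    rw [this, Int.mul_emod_right, Int.mul_ediv_cancel_left _ hk.ne']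
    exact ⟨rfl, dvd_mul_right _ _⟩
  · rintro ⟨h1, c, h2⟩
    refine ⟨c, ?_⟩
    have := Int.mul_ediv_add_emod a kk
    rw [h1, h2] at this
    rw [← this]; ring

theorem dvd_succ1 (e : ℕ) (a : ℤ) :
    kk ^ (e + 1) ∣ a + 1 ↔ a % kk = kk - 1 ∧ kk ^ e ∣ a / kk + 1 := by
  have hk := kk_pos
  constructor
  · rintro ⟨c, hc⟩
    have h1 : a = (kk - 1) + kk * (kk ^ e * c - 1) := by
      have : a = kk ^ (e + 1) * c - 1 := by linarith
      rw [this]; ring
    rw [h1, Int.add_mul_emod_self_left, Int.add_mul_ediv_left _ _ hk.ne',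
      Int.emod_eq_of_lt (by omega) (by omega), Int.ediv_eq_zero_of_lt (by omega) (by omega)]
    exact ⟨rfl, c, by ring⟩
  · rintro ⟨h1, c, h2⟩
    refine ⟨c, ?_⟩
    have := Int.mul_ediv_add_emod a kk
    have h3 : a / kk = kk ^ e * c - 1 := by linarith
    rw [h1, h3] at this
    rw [← this]; ring

theorem nfl_eq (m : ℕ) (w : Heis) (f : Fl)
    (h : last m = true ∨ f = fl (m + 1) (tail kk w)) : nfl (dig kk w) (last m) f = fl m w := by
  by_cases hl : last m = true
  · have he : ee m = 0 + 1 := by simpa [last] using hl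
    unfold nfl fl
    rw [hl, he]
    simp only [dvd_succ1]
    simp only [dvd_succ0, pow_zero, one_dvd, and_true, Bool.true_or, Bool.and_true]
    rfl
  · have hl' : last m = false := by simpa using hl
    rw [h.resolve_left hl]
    unfold nfl fl
    rw [hl', ee_succ hl']
    simp only [dvd_succ1]
    simp only [dvd_succ0, Bool.false_or, Bool.decide_and]
    rfl

/-! ### frames -/

def off (m : ℕ) (p : Rl) : Heis :=
  if sp m = true ∧ p.val = 1 then x else if sp m = true ∧ p.val = 2 then y else 1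

noncomputable def nu (m : ℕ) (p : Rl) (u : Heis) : Heis :=
  if sp m = true ∧ p.val = 1 then ⟨0, 0, u.b / kk ^ m⟩ * u
  else if sp m = true ∧ p.val = 2 then ⟨0, 0, -(u.a / kk ^ m)⟩ * u else u

noncomputable def mk (m : ℕ) (w : Heis) : Ctrl := ⟨dc w, sp m, last m, fl m w⟩

theorem fl_nu (l m : ℕ) (p : Rl) (u : Heis) : fl l (nu m p u) = fl l u := by
  unfold nu
  split_ifs <;> simp [fl]

theorem off_plain {m : ℕ} {p : Rl} (h1 : p.val ≠ 1) (h2 : p.val ≠ 2) : off m p = 1 := by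
  unfold off
  rw [if_neg (fun h => h1 h.2), if_neg (fun h => h2 h.2)]

theorem nu_plain {m : ℕ} {p : Rl} (h1 : p.val ≠ 1) (h2 : p.val ≠ 2) (u : Heis) :
    nu m p u = u := by
  unfold nu
  rw [if_neg (fun h => h1 h.2), if_neg (fun h => h2 h.2)]

theorem ediv_eps {K : ℤ} (hK : 0 < K) (b s : ℤ) (hs : |s| ≤ 1) :
    (s + b) / K = eps s (decide (K ∣ b)) (decide (K ∣ b + 1)) + b / K := by
  have h1 := Int.mul_ediv_add_emod b K
  have h2 := Int.emod_nonneg b hK.ne'
  have h3 := Int.emod_lt_of_pos b hK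
  have key : ∀ q r : ℤ, 0 ≤ r → r < K → s + b = r + K * q → (s + b) / K = q := by
    intro q r a1 a2 a3
    rw [a3, Int.add_mul_ediv_left _ _ hK.ne', Int.ediv_eq_zero_of_lt a1 a2, zero_add]
  have d0 : K ∣ b ↔ b % K = 0 := Int.dvd_iff_emod_eq_zero
  have d1 : K ∣ b + 1 ↔ b % K = K - 1 := by
    constructor
    · rintro ⟨c, hc⟩
      have : b = (K - 1) + K * (c - 1) := by linarith
      rw [this, Int.add_mul_emod_self_left, Int.emod_eq_of_lt (by omega) (by omega)]
    · intro h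
      exact ⟨b / K + 1, by linarith⟩
  rw [abs_le] at hs
  unfold eps
  simp only [decide_eq_true_eq, d0, d1]
  split_ifs with c1 c2
  · exact key _ 0 le_rfl hK (by linarith [c1.1, c1.2])
  · exact key _ (K - 1) (by omega) (by omega) (by linarith [c2.1, c2.2])
  · exact key _ (s + b % K) (by omega) (by omega) (by linarith)

theorem nu_mul (m : ℕ) (p : Rl) {n : Heis} (hn : Bl 1 n) (u : Heis) :
    nu m p (n * u) = mv n p (mk m (nu m p u)) * nu m p u := by
  have hK : 0 < kk ^ m := pow_pos kk_pos m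
  obtain ⟨h1, h2, -⟩ := bl_one_bound hn
  unfold mv
  simp only [mk, fl_nu]
  unfold nu
  split_ifs with c1 c2
  · simp only [fl, ee_sp c1.1, mul_b]
    rw [ediv_eps hK u.b n.b h2]
    ext <;> simp
    ring
  · simp only [fl, ee_sp c2.1, mul_a]
    rw [ediv_eps hK u.a n.a h1]
    ext <;> simp
    ring
  · rfl

theorem eps_abs (s : ℤ) (a b : Bool) : |eps s a b| ≤ 1 := by
  unfold eps
  split_ifs <;> simp

theorem mv_bl {n : Heis} (hn : Bl 1 n) (p : Rl) (D : Ctrl) : Bl 2 (mv n p D) := by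
  have key : ∀ s : ℤ, |s| ≤ 1 → Bl 2 ((⟨0, 0, s⟩ : Heis) * n) := by
    intro s hs
    refine bl_mul 1 1 _ _ ?_ hn
    rw [abs_le] at hs
    refine ⟨by simp, by simp, ?_⟩
    rw [abs_le]
    constructor <;> simp <;> omega
  unfold mv
  split_ifs
  · exact key _ (eps_abs _ _ _)
  · exact key _ (by rw [abs_neg]; exact eps_abs _ _ _)
  · exact bl_le hn (by omega)

theorem upd_eq (m : ℕ) (p : Rl) {n : Heis} (hn : Bl 1 n) (u : Heis) (v : Val)
    (h : last m = true ∨ getFl v = fl (m + 1) (tail kk (nu m p (n * u)))) :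
    upd n p (mk m (nu m p u)) v = mk m (nu m p (n * u)) := by
  have h1 : dact (mv n p (mk m (nu m p u))) (dc (nu m p u)) = dc (nu m p (n * u)) := by
    rw [← dc_mul, ← nu_mul m p hn]
  unfold upd
  simp only [mk] at h1 ⊢
  rw [h1]
  congr 1
  exact nfl_eq m _ _ h

noncomputable def tm (m : ℕ) : Heis → Heis := (tail kk)^[m]

theorem tm_succ (m : ℕ) (g : Heis) : tm (m + 1) g = tail kk (tm m g) :=
  Function.iterate_succ_apply' _ _ _

theorem tm_succ' (m : ℕ) (g : Heis) : tm (m + 1) g = tm m (tail kk g) := rfl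

theorem dil_dil (a b : ℤ) (g : Heis) : dil a (dil b g) = dil (a * b) g := by
  ext <;> simp [dil] <;> ring

theorem tm_split : ∀ (m : ℕ) (g : Heis), ∃ F : Heis, g = F * dil (kk ^ m) (tm m g) ∧
    0 ≤ F.a ∧ F.a < kk ^ m ∧ 0 ≤ F.b ∧ F.b < kk ^ m ∧ 0 ≤ F.c ∧
      F.c ≤ 2 * (kk ^ m) ^ 2 - 2 * kk ^ m
  | 0, g => ⟨1, by ext <;> simp [dil, tm], by simp⟩
  | m + 1, g => by
    obtain ⟨F, h0, h1, h2, h3, h4, h5, h6⟩ := tm_split m (tail kk g)
    obtain ⟨t1, t2, t3, t4, t5, t6⟩ := box_dig kk_pos g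
    have hk := kk_two
    have hK : 0 < kk ^ m := pow_pos kk_pos m
    refine ⟨dig kk g * dil kk F, ?_, ?_⟩
    · rw [tm_succ', pow_succ', ← dil_dil, mul_assoc, ← dil_mul, ← h0, dig_tail]
    · rw [pow_succ']
      simp only [mul_a, mul_b, mul_c, dil]
      generalize dig kk g = t at *
      generalize kk ^ m = K at *
      generalize kk = k at *
      have hk0 : 0 ≤ k := by omega
      have e1 : k * F.a ≤ k * (K - 1) := mul_le_mul_of_nonneg_left (by omega) hk0
      have e2 : k * F.b ≤ k * (K - 1) := mul_le_mul_of_nonneg_left (by omega) hk0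
      have e3 : k ^ 2 * F.c ≤ k ^ 2 * (2 * K ^ 2 - 2 * K) :=
        mul_le_mul_of_nonneg_left h6 (by positivity)
      have e4 : t.a * (k * F.b) ≤ k * (k * (K - 1)) :=
        mul_le_mul t2.le e2 (by positivity) hk0
      have e5 : 2 * (k * K) ≤ k * (k * K) :=
        mul_le_mul_of_nonneg_right hk (by positivity)
      refine ⟨by positivity, by linarith, by positivity, by linarith, by positivity, ?_⟩
      linarith

theorem small_of_mul {K s : ℤ} (hK : 0 < K) {c : ℤ} (h1 : -(c * K) < K * s) (h2 : K * s < c * K) :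
    -c < s ∧ s < c := by
  constructor <;> nlinarith

theorem near_x {K : ℤ} (hK : 0 < K) {g F F' u u' : Heis} (h0 : g = F * dil K u)
    (k0 : g * x = F' * dil K u') (h1 : 0 ≤ F.a) (h2 : F.a < K) (h3 : 0 ≤ F.b) (h4 : F.b < K)
    (h5 : 0 ≤ F.c) (h6 : F.c ≤ 2 * K ^ 2 - 2 * K) (k1 : 0 ≤ F'.a) (k2 : F'.a < K) (k3 : 0 ≤ F'.b)
    (k4 : F'.b < K) (k5 : 0 ≤ F'.c) (k6 : F'.c ≤ 2 * K ^ 2 - 2 * K) :
    Bl 2 ((⟨0, 0, u'.b / K⟩ : Heis) * u' * u⁻¹) := by
  have hK2 : 0 < K ^ 2 := by positivity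
  have a0 : g.a = F.a + K * u.a := congrArg Heis.a h0
  have b0 : g.b = F.b + K * u.b := congrArg Heis.b h0
  have c0 : g.c = F.c + K ^ 2 * u.c + F.a * (K * u.b) := congrArg Heis.c h0
  have a1 : g.a + 1 = F'.a + K * u'.a := congrArg Heis.a k0
  have b1 : g.b + 0 = F'.b + K * u'.b := congrArg Heis.b k0
  have c1 : g.c + 0 + g.a * 0 = F'.c + K ^ 2 * u'.c + F'.a * (K * u'.b) := congrArg Heis.c k0
  have e1 := small_of_mul hK (c := 1) (s := u'.b - u.b) (by linarith) (by linarith)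
  have e2 := small_of_mul hK (c := 2) (s := u'.a - u.a) (by linarith) (by linarith)
  have e3 : u'.b = u.b := by omega
  rw [e3] at c1 ⊢
  have r1 := Int.mul_ediv_add_emod u.b K
  have r2 := Int.emod_nonneg u.b hK.ne'
  have r3 := Int.emod_lt_of_pos u.b hK
  have r4 : K * (u.b % K) < K * K := mul_lt_mul_of_pos_left r3 hK
  have r5 : 0 ≤ K * (u.b % K) := by positivity
  have e4 : K ^ 2 * (u.b / K + u'.c - u.c + (u.a - u'.a) * u.b) =
      F.c - F'.c - K * (u.b % K) := by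
    have q1 : F'.a = F.a + 1 + K * (u.a - u'.a) := by linarith
    rw [q1] at c1
    linear_combination (-1 : ℤ) * c1 + c0 + K * r1
  have e5 := small_of_mul hK2 (c := 3) (s := u.b / K + u'.c - u.c + (u.a - u'.a) * u.b)
    (by rw [e4]; linarith) (by rw [e4]; linarith)
  refine ⟨?_, ?_, ?_⟩ <;> simp only [mul_a, mul_b, mul_c, inv_a, inv_b, inv_c, e3] <;>
    rw [abs_le] <;> push_cast <;> constructor <;> linarith

theorem near_y {K : ℤ} (hK : 0 < K) {g F F' u u' : Heis} (h0 : g = F * dil K u)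
    (k0 : g * y = F' * dil K u') (h1 : 0 ≤ F.a) (h2 : F.a < K) (h3 : 0 ≤ F.b) (h4 : F.b < K)
    (h5 : 0 ≤ F.c) (h6 : F.c ≤ 2 * K ^ 2 - 2 * K) (k1 : 0 ≤ F'.a) (k2 : F'.a < K) (k3 : 0 ≤ F'.b)
    (k4 : F'.b < K) (k5 : 0 ≤ F'.c) (k6 : F'.c ≤ 2 * K ^ 2 - 2 * K) :
    Bl 2 ((⟨0, 0, -(u'.a / K)⟩ : Heis) * u' * u⁻¹) := by
  have hK2 : 0 < K ^ 2 := by positivity
  have a0 : g.a = F.a + K * u.a := congrArg Heis.a h0
  have b0 : g.b = F.b + K * u.b := congrArg Heis.b h0
  have c0 : g.c = F.c + K ^ 2 * u.c + F.a * (K * u.b) := congrArg Heis.c h0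
  have a1 : g.a + 0 = F'.a + K * u'.a := congrArg Heis.a k0
  have b1 : g.b + 1 = F'.b + K * u'.b := congrArg Heis.b k0
  have c1 : g.c + 0 + g.a * 1 = F'.c + K ^ 2 * u'.c + F'.a * (K * u'.b) := congrArg Heis.c k0
  have e1 := small_of_mul hK (c := 1) (s := u'.a - u.a) (by linarith) (by linarith)
  have e2 := small_of_mul hK (c := 2) (s := u'.b - u.b) (by linarith) (by linarith)
  have e3 : u'.a = u.a := by omega
  have e3' : F'.a = F.a := by rw [e3] at a1; linarith
  rw [e3'] at c1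
  rw [e3]
  have r1 := Int.mul_ediv_add_emod u.a K
  have r2 := Int.emod_nonneg u.a hK.ne'
  have r3 := Int.emod_lt_of_pos u.a hK
  have r4 : K * (u.a % K) < K * K := mul_lt_mul_of_pos_left r3 hK
  have r5 : 0 ≤ K * (u.a % K) := by positivity
  have e4 : K ^ 2 * (-(u.a / K) + u'.c - u.c) =
      F.c - F'.c + F.a - F.a * K * (u'.b - u.b) + K * (u.a % K) := by
    linear_combination (-1 : ℤ) * c1 + c0 + a0 - K * r1
  have r6 : F.a * K < K * K := mul_lt_mul_of_pos_right h2 hK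
  have r7 : 0 ≤ F.a * K := by positivity
  have r8 : K * 1 ≤ K * K := mul_le_mul_of_nonneg_left (by omega) hK.le
  have r9 : F.a * K * (u'.b - u.b) ≤ F.a * K * 1 := mul_le_mul_of_nonneg_left (by omega) r7
  have r10 : F.a * K * (-1) ≤ F.a * K * (u'.b - u.b) := mul_le_mul_of_nonneg_left (by omega) r7
  have e5 := small_of_mul hK2 (c := 5) (s := -(u.a / K) + u'.c - u.c)
    (by rw [e4]; linarith) (by rw [e4]; linarith)
  refine ⟨?_, ?_, ?_⟩ <;> simp only [mul_a, mul_b, mul_c, inv_a, inv_b, inv_c, e3] <;>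
    rw [abs_le] <;> push_cast <;> constructor <;> linarith

theorem nu_near (m : ℕ) (p : Rl) (g : Heis) :
    ∃ e, Bl 2 e ∧ nu m p (tm m (g * off m p)) = e * tm m g := by
  have hK : 0 < kk ^ m := pow_pos kk_pos m
  obtain ⟨F, h0, h1, h2, h3, h4, h5, h6⟩ := tm_split m g
  obtain ⟨F', k0, k1, k2, k3, k4, k5, k6⟩ := tm_split m (g * off m p)
  refine ⟨nu m p (tm m (g * off m p)) * (tm m g)⁻¹, ?_, by group⟩
  unfold nu
  unfold off at k0 ⊢
  split_ifs at k0 ⊢ with c1 c2
  · exact near_x hK h0 k0 h1 h2 h3 h4 h5 h6 k1 k2 k3 k4 k5 k6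
  · exact near_y hK h0 k0 h1 h2 h3 h4 h5 h6 k1 k2 k3 k4 k5 k6
  · rw [mul_one, mul_inv_cancel]
    exact bl_le bl_zero (by omega)

theorem nu_bl (m : ℕ) (p : Rl) {n : Heis} (hn : Bl 1 n) (u : Heis) :
    ∃ e, Bl 2 e ∧ nu m p (n * u) = e * nu m p u :=
  ⟨_, mv_bl hn _ _, nu_mul m p hn u⟩

end H650Z.Min
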