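import Pool.Agent.H650Z.MinDefs

set_option autoImplicit false

/-! The registers of a cell as functions of the data of the simulated cell, and the local law. -/

namespace H650Z.Min

open Classical H593Z.Sim H593Z.Sim.Heis

noncomputable def run (I : Ins) (Φ : Env) : Val :=
  app (if I.1 = .exec then Φ (I.2 0) else .fid I.1) (Φ (I.2 1)) (Φ (I.2 2)) (Φ (I.2 3)) (Φ (I.2 4))

theorem step_run (n : NN) {Φ : Env} {p : Rl} {D : Ctrl} (h1 : Φ (.own .role) = .role p)
    (h2 : Φ (.own .dig) = .dig D) (j : Comp) : step n Φ j = run (ins p D n j) Φ :=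
  step_eq n h1 h2 j

theorem run_cp (σ : Src) (Φ : Env) : run (cp σ) Φ = Φ σ := by
  unfold run cp
  rw [if_neg (by simp)]
  rfl

theorem run_bl (Φ : Env) : run bl Φ = .blank := by
  unfold run bl
  rw [if_neg (by simp)]
  rfl

theorem run_req (x : Col) (Φ : Env) : run (.req x, fun _ => .own .role) Φ = .req x := by
  unfold run
  rw [if_neg (by simp)]
  rfl

theorem run_four {f : Fid} (hf : f ≠ .exec) (a b c e : Src) (Φ : Env) :
    run (four f a b c e) Φ = app (.fid f) (Φ a) (Φ b) (Φ c) (Φ e) := by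
  unfold run four
  rw [if_neg hf]
  rfl

noncomputable def gv (k : ℕ) (D : DC) (Ψ : Col → Env) (x : Col) : Val :=
  if pt k ≤ th (d D x) then Ψ x (src k) else .blank

noncomputable def valS (p : Rl) (D : DC) (Ψ : Col → Env) (Ξ : Col → NN → Comp → Val) :
    Slot → Val
  | .St x => if d D x ≤ TT then Ψ x (.own (cmp p)) else .blank
  | .Res x n => if d D x ≤ 2 then Ξ x n (cmp p) else .blank
  | .IR x n => if d D x ≤ 4 then ev (cmp p) n (Ψ x) else .blank
  | .O x n t => pk (.O (cmp p) n t) (Ψ x) (th (d D x))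
  | .cR x => gv 0 D Ψ x
  | .cD x => gv 1 D Ψ x
  | .W x => if hold p D x then Ψ x (sg D x) else .blank
  | .Pst x y => pk (.Pst (decide (p.val = 0)) y) (Ψ x) (th (d D x))
  | .P y => opd (.Pst (decide (p.val = 0)) y) (Ψ D.2)
  | .Qst x y => gv (wi (sl (rq p y))) D Ψ x
  | .RqL x => if needL p D x then
      (if p.val = 0 then Ψ x (sl (.RqL (chn (sg D x)))) else .req x) else .blank
  | .RqR x => if needR p D x then
      (if p.val = B - 1 then Ψ x (sl (.RqR (chn (sg D x)))) else .req x) else .blank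

noncomputable def val (p : Rl) (D : DC) (Ψ : Col → Env) (Ξ : Col → NN → Comp → Val) (s : Slot) :
    Val :=
  if p.val = 3 ∧ masked s = true then .blank else valS p D Ψ Ξ s

noncomputable def env (p : Rl) (D : Ctrl) (Ψ : Col → Env) (Ξ : Col → NN → Comp → Val) : Env
  | .own .role => .role p
  | .own .dig => .dig D
  | .own (.slot s) => val p D.dc Ψ Ξ s
  | .inL x => if needL p D.dc x then Ψ x (sg D.dc x) else .blank
  | .inR x => if needR p D.dc x then Ψ x (sg D.dc x) else .blank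

theorem env_sl {p : Rl} (D : Ctrl) (Ψ : Col → Env) (Ξ : Col → NN → Comp → Val) {s : Slot}
    (h : p.val ≠ 3 ∨ masked s = false) : env p D Ψ Ξ (sl s) = valS p D.dc Ψ Ξ s := by
  show val p D.dc Ψ Ξ s = _
  unfold val
  rw [if_neg]
  rintro ⟨h1, h2⟩
  rcases h with h | h
  · exact h h1
  · rw [h] at h2; exact absurd h2 (by simp)

/-- on the plateau of window `k` the bus holds the value of source `k` -/
theorem bus_plateau (p : Rl) (D : DC) (Ψ : Col → Env) (Ξ : Col → NN → Comp → Val) (x : Col)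
    {k : ℕ} (hk : k < nW) (h1 : pt k ≤ th (d D x) + 2) (h2 : th (d D x) < pt k) :
    valS p D Ψ Ξ (.W x) = Ψ x (src k) := by
  obtain ⟨e1, e2⟩ := plateau hk h1 h2
  have hs : sg D x = src k := by unfold sg; rw [e1]
  have hh : hold p D x := by
    unfold hold
    have := dl_le p (sg D x)
    rw [e2, Hh_def]
    omega
  simp only [valS]
  rw [if_pos hh, hs]

theorem pick_law (κ : Kind) (Φ : Env) (dD dE : TH) (w : Val)
    (h : th dE ≤ th dD + 2)
    (hw : ∀ k, k < nW → pt k ≤ th dD + 2 → th dD < pt k → w = Φ (src k)) :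
    app (.fid (.pick κ dD dE)) (pk κ Φ (th dD)) w
      (if pt 0 ≤ th dD then Φ (src 0) else .blank) (if pt 1 ≤ th dD then Φ (src 1) else .blank) =
      pk κ Φ (th dE) := by
  have h01 : pt 0 + 2 ≤ pt 1 := by have := pt_mono (show 0 < 1 by omega); have := pt_ge 1; omega
  rw [src_zero, src_one]
  by_cases h1 : pt 1 ≤ th dD
  · rw [if_pos h1, if_pos (by omega)]
    unfold pk
    cases Φ (.own .role) <;> cases Φ (.own .dig) <;> simp only [pk', app]
    rename_i p D
    by_cases h2 : th dE < pt (wi (ksrc κ p D))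
    · rw [if_pos h2, if_neg (by omega)]
    · rw [if_neg h2, if_pos (show pt (wi (ksrc κ p D)) ≤ th dE by omega)]
      by_cases h3 : pt (wi (ksrc κ p D)) ≤ th dD
      · rw [if_pos h3, if_pos h3]
      · rw [if_neg h3, hw _ (wi_lt (ksrc κ p D)) (by omega) (by omega), src_wi]
  · rw [if_neg h1]
    have e1 : ∀ a b c, app (.fid (.pick κ dD dE)) a b c .blank = .blank := by
      intro a b c
      cases c <;> rfl
    rw [e1]
    unfold pk
    cases Φ (.own .role) <;> cases Φ (.own .dig) <;> simp only [pk']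
    rename_i p D
    have h4 := pt_mono (show 1 < wi (ksrc κ p D) from wi_ge _)
    have h5 := pt_ge (wi (ksrc κ p D))
    rw [if_neg (by omega)]

theorem pk_zero (κ : Kind) (Φ : Env) : pk κ Φ 0 = .blank := by
  unfold pk
  cases Φ (.own .role) <;> cases Φ (.own .dig) <;> simp only [pk']
  rename_i p D
  have := pt_ge (wi (ksrc κ p D))
  rw [if_neg (by omega)]

structure Move (D E : DC) (Ψ Ψ' : Col → Env) (Ξ Ξ' : Col → NN → Comp → Val) : Prop where
  l1 : ∀ x, d D x ≤ d E x + 2
  l2 : ∀ x, d E x ≤ d D x + 2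
  z1 : d D D.2 = 0
  z2 : d E E.2 = 0
  s1 : ∀ x, d D x < cap → Ψ' x = Ψ x
  s2 : ∀ x, d D x < cap → Ξ' x = Ξ x
  nw : ∀ x, d D x < cap → ∀ j, Ψ x (.own j) = Ξ D.2 (rel D.2 x) j
  law : ∀ x n j, Ξ x n j = step n (Ψ x) j

section law

variable {p : Rl} {D : Ctrl} {E : DC} {Ψ Ψ' : Col → Env} {Ξ Ξ' : Col → NN → Comp → Val}
  (M : Move D.dc E Ψ Ψ' Ξ Ξ')
include M

theorem law_grab {k : ℕ} (hk : k < nW) (s : Slot) (x : Col)
    (hs : env p D Ψ Ξ (sl s) = gv k D.dc Ψ x) :
    gv k E Ψ' x = run (grab k s x D.dc E) (env p D Ψ Ξ) := by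
  have h1 := M.l1 x
  have h2 := pt_ge k
  have h3 := cap_def
  unfold grab gv
  by_cases h4 : th (d E x) < pt k
  · rw [if_pos h4, if_neg (by omega), run_bl]
  · have h5 : d D.dc x < cap := by unfold th at h4; omega
    rw [if_neg h4, if_pos (by omega), M.s1 x h5]
    by_cases h6 : pt k ≤ th (d D.dc x)
    · rw [if_pos h6, run_cp, hs]
      unfold gv
      rw [if_pos h6]
    · rw [if_neg h6, run_cp, env_sl _ _ _ (Or.inr rfl),
        bus_plateau p D.dc Ψ Ξ x hk (by unfold th at h4 ⊢; omega) (by omega)]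

theorem law_pick (hp : p.val ≠ 3) (κ : Kind) (s : Slot) (x : Col)
    (hs : valS p D.dc Ψ Ξ s = pk κ (Ψ x) (th (d D.dc x))) :
    pk κ (Ψ' x) (th (d E x)) =
      run (four (.pick κ (dd D.dc x) (dd E x)) (sl s) (sl (.W x)) (sl (.cR x)) (sl (.cD x)))
        (env p D Ψ Ξ) := by
  have h1 := M.l1 x
  have h3 := cap_def
  rw [run_four (by simp), env_sl _ _ _ (Or.inl hp), env_sl _ _ _ (Or.inl hp),
    env_sl _ _ _ (Or.inl hp), env_sl _ _ _ (Or.inl hp), hs]
  have := pick_law κ (Ψ x) (dd D.dc x) (dd E x) (valS p D.dc Ψ Ξ (.W x))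
    (by show th (d E x) ≤ th (d D.dc x) + 2; unfold th; omega)
    (fun k hk a b => bus_plateau p D.dc Ψ Ξ x hk a b)
  refine Eq.trans ?_ this.symm
  show pk κ (Ψ' x) (th (d E x)) = pk κ (Ψ x) (th (d E x))
  by_cases h4 : th (d E x) = 0
  · rw [h4, pk_zero, pk_zero]
  · rw [M.s1 x (by unfold th at h4; omega)]

theorem sg_same {x : Col} (h : 2 < len (th (d E x))) :
    sg D.dc x = sg E x ∧ len (th (d E x)) ≤ len (th (d D.dc x)) + 2 ∧ d D.dc x ≤ TT := by
  have h1 := M.l1 x
  have h2 := M.l2 x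
  obtain ⟨e1, e2⟩ := len_lip (t := th (d E x)) (t' := th (d D.dc x)) (a := 2)
    (by unfold th; omega) (by unfold th; omega) h
  have h3 := len_le (th (d E x))
  refine ⟨by unfold sg; rw [e1], e2, ?_⟩
  unfold th at h3 h
  omega

theorem law_W (x : Col) : valS p E Ψ' Ξ' (.W x) = run (insS p D.dc E (.W x)) (env p D Ψ Ξ) := by
  simp only [valS, insS]
  by_cases h : hold p E x
  · rw [if_pos h, if_pos h]
    have h0 := h
    unfold hold at h0
    obtain ⟨e1, e2, e3⟩ := sg_same M (x := x) (by omega)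
    rw [M.s1 x (by rw [cap_def]; omega)]
    by_cases h1 : pos (sg E x) = p.val + 1
    · obtain ⟨f1, f2⟩ := pos_eq h1
      rw [if_pos h1, run_cp, env_sl _ _ _ (Or.inl f2)]
      simp only [valS]
      rw [if_pos e3, f1]
    · rw [if_neg h1]
      by_cases h2 : p.val + 1 < pos (sg E x)
      · rw [if_pos h2, run_cp]
        simp only [env]
        rw [if_pos ⟨by rw [e1]; exact h2, by rw [e1]; omega⟩, e1]
      · rw [if_neg h2, run_cp]
        simp only [env]
        rw [if_pos ⟨by rw [e1]; omega, by rw [e1]; omega⟩, e1]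
  · rw [if_neg h, if_neg h, run_bl]

theorem qst_ok (hp : p.val ≠ 3) (x y : Col) (hw : 2 + nC ≤ win (th (d E x))) :
    env p D Ψ Ξ (sl (.Qst x y)) = Ψ' x (sl (rq p y)) := by
  have h1 := M.l1 x
  have h2 : wi (sl (rq p y)) < win (th (d E x)) := by
    have := (idx (.slot (rq p y))).2
    simp only [sl, wi]
    omega
  have h3 := pt_mono h2
  have h4 := win_le (th (d E x))
  have h5 := pt_ge (wi (sl (rq p y)))
  have h6 := cap_def
  rw [env_sl _ _ _ (Or.inl hp)]
  simp only [valS, gv]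
  rw [if_pos (by unfold th at h3 h4 ⊢; omega), src_wi, M.s1 x (by unfold th at h3 h4; omega)]

omit M in
theorem win_in {t : ℕ} {y : Col} (h : src (win t) = .inL y ∨ src (win t) = .inR y) :
    2 + nC ≤ win t := by
  rcases src_cases (win t) with ⟨j, hj⟩ | h1
  · rw [hj] at h; simp at h
  · rcases h with h | h <;> rw [h] at h1 <;> simp only [wi] at h1 <;> omega

theorem law_RqL (x : Col) :
    valS p E Ψ' Ξ' (.RqL x) = run (insS p D.dc E (.RqL x)) (env p D Ψ Ξ) := by
  simp only [valS, insS]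
  by_cases h : needL p E x
  · rw [if_pos h, if_pos h]
    by_cases h1 : p.val = 0
    · rw [if_pos h1, if_pos h1, run_cp,
        qst_ok M (by omega) x _ (win_in (Or.inl (pos_left h1 h.1)))]
      unfold rq
      rw [if_pos h1]
    · rw [if_neg h1, if_neg h1, run_req]
  · rw [if_neg h, if_neg h, run_bl]

theorem law_RqR (x : Col) :
    valS p E Ψ' Ξ' (.RqR x) = run (insS p D.dc E (.RqR x)) (env p D Ψ Ξ) := by
  have hB := B_def
  simp only [valS, insS]
  by_cases h : needR p E x
  · rw [if_pos h, if_pos h]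
    by_cases h1 : p.val = B - 1
    · rw [if_pos h1, if_pos h1, run_cp,
        qst_ok M (by omega) x _ (win_in (Or.inr (pos_right h1 h.1)))]
      unfold rq
      rw [if_neg (by omega)]
    · rw [if_neg h1, if_neg h1, run_req]
  · rw [if_neg h, if_neg h, run_bl]

theorem law_St (hp : p.val ≠ 3) (x : Col) :
    valS p E Ψ' Ξ' (.St x) = run (insS p D.dc E (.St x)) (env p D Ψ Ξ) := by
  have h1 := M.l1 x
  have h3 := cap_def
  simp only [valS, insS]
  by_cases h : d E x ≤ TT
  · rw [if_pos h, if_pos h, M.s1 x (by omega)]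
    by_cases h2 : d D.dc x ≤ TT
    · rw [if_pos h2, run_cp, env_sl _ _ _ (Or.inl hp)]
      simp only [valS]
      rw [if_pos h2]
    · rw [if_neg h2, run_cp, env_sl _ _ _ (Or.inl hp)]
      simp only [valS]
      rw [if_pos (by rw [M.z1]; omega), M.nw x (by omega)]
  · rw [if_neg h, if_neg h, run_bl]

theorem law_Res (hp : p.val ≠ 3) (x : Col) (n : NN) :
    valS p E Ψ' Ξ' (.Res x n) = run (insS p D.dc E (.Res x n)) (env p D Ψ Ξ) := by
  have h1 := M.l1 x
  have h3 := cap_def
  have h4 := TT_def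
  simp only [valS, insS]
  by_cases h : d E x ≤ 2
  · rw [if_pos h, if_pos h, M.s2 x (by omega), M.law]
    unfold run
    simp only [if_true]
    rw [if_neg (by decide), if_neg (by decide), if_neg (by decide), if_neg (by decide),
      env_sl _ _ _ (Or.inl hp), env_sl _ _ _ (Or.inl hp), env_sl _ _ _ (Or.inl hp),
      env_sl _ _ _ (Or.inl hp), env_sl _ _ _ (Or.inl hp)]
    simp only [valS]
    have h5 : LL ≤ th (d D.dc x) := by unfold th; omega
    rw [if_pos (by omega), pk_full _ _ h5, pk_full _ _ h5, pk_full _ _ h5, pk_full _ _ h5]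
    rfl
  · rw [if_neg h, if_neg h, run_bl]

theorem law_IR (hp : p.val ≠ 3) (x : Col) (n : NN) :
    valS p E Ψ' Ξ' (.IR x n) = run (insS p D.dc E (.IR x n)) (env p D Ψ Ξ) := by
  have h1 := M.l1 x
  have h3 := cap_def
  have h4 := TT_def
  simp only [valS, insS]
  by_cases h : d E x ≤ 4
  · rw [if_pos h, if_pos h, M.s1 x (by omega), run_four (by simp),
      env_sl _ _ _ (Or.inl hp), env_sl _ _ _ (Or.inl hp), env_sl _ _ _ (Or.inl hp)]
    simp only [valS, gv]
    have h5 : LL ≤ th (d D.dc x) := by unfold th; omega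
    have h6 : pt 0 ≤ LL := pt_le (by rw [nW_def]; omega)
    have h7 : pt 1 ≤ LL := pt_le (by rw [nW_def]; omega)
    rw [if_pos (by omega), if_pos (by omega), pk_full _ _ h5, src_zero, src_one]
    unfold ev
    cases Ψ x (.own .role) <;> cases Ψ x (.own .dig) <;> rfl
  · rw [if_neg h, if_neg h, run_bl]

theorem law_P (hp : p.val ≠ 3) (y : Col) :
    valS p E Ψ' Ξ' (.P y) = run (insS p D.dc E (.P y)) (env p D Ψ Ξ) := by
  have h1 := M.l1 E.2
  have h2 := M.z2
  have h3 := cap_def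
  have h4 := TT_def
  simp only [valS, insS]
  rw [run_cp, env_sl _ _ _ (Or.inl hp), M.s1 _ (by omega)]
  simp only [valS]
  rw [pk_full _ _ (by unfold th; omega)]

theorem law_slot (n : NN) (hE : E = dact (mv n.1 p D) D.dc) (s : Slot) :
    val p E Ψ' Ξ' s = step n (env p D Ψ Ξ) (.slot s) := by
  rw [step_run n (p := p) (D := D) rfl rfl]
  simp only [ins, val]
  rw [← hE]
  by_cases h : p.val = 3 ∧ masked s = true
  · rw [if_pos h, if_pos h, run_bl]
  · rw [if_neg h, if_neg h]
    have hp : masked s = true → p.val ≠ 3 := fun h1 h2 => h ⟨h2, h1⟩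
    have hW := nW_def
    cases s with
    | St x => exact law_St M (hp rfl) x
    | Res x n => exact law_Res M (hp rfl) x n
    | IR x n => exact law_IR M (hp rfl) x n
    | O x n t => exact law_pick M (hp rfl) _ _ x rfl
    | cR x => exact law_grab M (by omega) _ x (env_sl _ _ _ (Or.inl (hp rfl)))
    | cD x => exact law_grab M (by omega) _ x (env_sl _ _ _ (Or.inr rfl))
    | W x => exact law_W M x
    | Pst x y => exact law_pick M (hp rfl) _ _ x rfl
    | P y => exact law_P M (hp rfl) y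
    | Qst x y => exact law_grab M (wi_lt _) _ x (env_sl _ _ _ (Or.inl (hp rfl)))
    | RqL x => exact law_RqL M x
    | RqR x => exact law_RqR M x

theorem law_dig (n : NN) (hE : E = dact (mv n.1 p D) D.dc) :
    step n (env p D Ψ Ξ) .dig = .dig (upd n.1 p D (Ψ' E.2 (.own .dig))) := by
  have h1 := M.l1 E.2
  have h2 := M.z2
  have h3 := cap_def
  have h4 := TT_def
  have h7 : pt 1 ≤ LL := pt_le (by rw [nW_def]; omega)
  rw [step_run n (p := p) (D := D) rfl rfl]
  simp only [ins]
  rw [← hE, run_four (by simp), env_sl _ _ _ (Or.inr rfl), M.s1 _ (by omega)]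
  simp only [valS, gv]
  rw [if_pos (by unfold th; omega), src_one]
  rfl

end law

theorem law_role (p : Rl) (D : Ctrl) (Ψ : Col → Env) (Ξ : Col → NN → Comp → Val) (n : NN) :
    step n (env p D Ψ Ξ) .role = .role p := by
  rw [step_run n (p := p) (D := D) rfl rfl]
  simp only [ins]
  rw [run_cp]
  rfl

/-! ### reading a neighbour whose clock is slightly off -/

theorem bus_near {p p' : Rl} {D D' : DC} {Ψ Ψ' : Col → Env} {Ξ' : Col → NN → Comp → Val}
    {x : Col} (l1 : d D x ≤ d D' x + 6) (l2 : d D' x ≤ d D x + 6)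
    (s1 : d D x < cap → Ψ' x = Ψ x) (h1 : dl p' (sg D x) + 1 = dl p (sg D x))
    (h2 : 9 * (dl p (sg D x) + 1) ≤ len (th (d D x)) + 2) :
    valS p' D' Ψ' Ξ' (.W x) = Ψ x (sg D x) := by
  obtain ⟨e1, e2⟩ := len_lip (t := th (d D x)) (t' := th (d D' x)) (a := 6)
    (by unfold th; omega) (by unfold th; omega) (by omega)
  have e3 : sg D' x = sg D x := by unfold sg; rw [e1]
  have h3 := len_le (th (d D x))
  have h4 := cap_def
  simp only [valS]
  rw [if_pos (by unfold hold; rw [e3]; omega), e3, s1 (by unfold th at h3 h2; omega)]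

theorem tol_innerR {p p' : Rl} (hp : p'.val = p.val + 1) {D D' : Ctrl} {Ψ Ψ' : Col → Env}
    {Ξ Ξ' : Col → NN → Comp → Val} (x : Col) (l1 : d D.dc x ≤ d D'.dc x + 6)
    (l2 : d D'.dc x ≤ d D.dc x + 6) (s1 : d D.dc x < cap → Ψ' x = Ψ x) :
    env p D Ψ Ξ (.inR x) = rd (env p D Ψ Ξ (sl (.RqR x)))
      (fun y => opd (.Pst true y) (env p' D' Ψ' Ξ')) := by
  rw [env_sl _ _ _ (Or.inr rfl)]
  simp only [env, valS]
  by_cases h : needR p D.dc x
  · have := p'.2
    rw [if_pos h, if_pos h, if_neg (by omega)]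
    simp only [rd]
    rw [opd_eq _ (p := p') (D := D') rfl rfl]
    simp only [ksrc, expo]
    rw [if_neg (by simp; omega), env_sl _ _ _ (Or.inr rfl),
      bus_near l1 l2 s1 (by have := h.1; unfold dl; omega) h.2]
  · rw [if_neg h, if_neg h]
    rfl

theorem tol_innerL {p p' : Rl} (hp : p.val = p'.val + 1) {D D' : Ctrl} {Ψ Ψ' : Col → Env}
    {Ξ Ξ' : Col → NN → Comp → Val} (x : Col) (l1 : d D.dc x ≤ d D'.dc x + 6)
    (l2 : d D'.dc x ≤ d D.dc x + 6) (s1 : d D.dc x < cap → Ψ' x = Ψ x) :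
    env p D Ψ Ξ (.inL x) = rd (env p D Ψ Ξ (sl (.RqL x)))
      (fun y => opd (.Pst false y) (env p' D' Ψ' Ξ')) := by
  rw [env_sl _ _ _ (Or.inr rfl)]
  simp only [env, valS]
  by_cases h : needL p D.dc x
  · have := p.2
    rw [if_pos h, if_pos h, if_neg (by omega)]
    simp only [rd]
    rw [opd_eq _ (p := p') (D := D') rfl rfl]
    simp only [ksrc, expo]
    rw [if_neg (by simp; omega), env_sl _ _ _ (Or.inr rfl),
      bus_near l1 l2 s1 (by have := h.1; unfold dl; omega) h.2]
  · rw [if_neg h, if_neg h]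
    rfl

theorem need_near {p : Rl} {D : DC} {x : Col}
    (h : 9 * (dl p (sg D x) + 1) ≤ len (th (d D x)) + 2) : d D x < cap := by
  have h3 := len_le (th (d D x))
  have h4 := cap_def
  unfold th at h3 h
  omega

theorem tol_portR {p p' : Rl} (hp : p.val = B - 1) (hp' : p'.val = 0) {D D' : Ctrl}
    {Ψ Ψ' : Col → Env} {Ξ Ξ' : Col → NN → Comp → Val} (x : Col)
    (h : d D.dc x < cap → ∀ x', Ψ x (.inR x') = rd (Ψ x (sl (.RqR x')))
      (fun y => opd (.Pst true y) (Ψ' D'.dc.2))) :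
    env p D Ψ Ξ (.inR x) = rd (env p D Ψ Ξ (sl (.RqR x)))
      (fun y => opd (.Pst true y) (env p' D' Ψ' Ξ')) := by
  rw [env_sl _ _ _ (Or.inr rfl)]
  simp only [env, valS]
  by_cases h1 : needR p D.dc x
  · rw [if_pos h1, if_pos h1, if_pos hp]
    have e1 := pos_right hp h1.1
    conv_lhs => rw [e1]
    rw [h (need_near h1.2)]
    congr 1
    funext y
    rw [opd_eq _ (Φ := env p' D' Ψ' Ξ') (p := p') (D := D') rfl rfl]
    simp only [ksrc, expo]
    rw [if_pos (by simp [hp']), env_sl _ _ _ (Or.inl (by omega))]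
    simp only [valS]
    rw [decide_eq_true hp']
  · rw [if_neg h1, if_neg h1]
    rfl

theorem tol_portL {p p' : Rl} (hp : p.val = 0) (hp' : p'.val = B - 1) {D D' : Ctrl}
    {Ψ Ψ' : Col → Env} {Ξ Ξ' : Col → NN → Comp → Val} (x : Col)
    (h : d D.dc x < cap → ∀ x', Ψ x (.inL x') = rd (Ψ x (sl (.RqL x')))
      (fun y => opd (.Pst false y) (Ψ' D'.dc.2))) :
    env p D Ψ Ξ (.inL x) = rd (env p D Ψ Ξ (sl (.RqL x)))
      (fun y => opd (.Pst false y) (env p' D' Ψ' Ξ')) := by
  have hB := B_def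
  rw [env_sl _ _ _ (Or.inr rfl)]
  simp only [env, valS]
  by_cases h1 : needL p D.dc x
  · rw [if_pos h1, if_pos h1, if_pos hp]
    have e1 := pos_left hp h1.1
    conv_lhs => rw [e1]
    rw [h (need_near h1.2)]
    congr 1
    funext y
    rw [opd_eq _ (Φ := env p' D' Ψ' Ξ') (p := p') (D := D') rfl rfl]
    simp only [ksrc, expo]
    rw [if_pos (by simp [hp']), env_sl _ _ _ (Or.inl (by omega))]
    simp only [valS]
    rw [decide_eq_false (by omega)]
  · rw [if_neg h1, if_neg h1]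
    rfl

end H650Z.Min
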