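import Pool.Agent.H650Z.MinRec
import Pool.Agent.H650Z.MinFam

set_option autoImplicit false

/-! The family of rows with Heisenberg time, over a finite alphabet. -/

namespace H650Z.Min

open Classical H593Z.Sim H593Z.Sim.Heis

noncomputable def fam : TFam Heis (Comp → Val) where
  row := fun N h => rowL (top N) 0 h
  loc := by
    intro g
    have hg : g ∈ Subgroup.closure {g : Heis | Bl 1 g} := by rw [Heis.gen]; trivial
    induction hg using Subgroup.closure_induction'' with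
    | mem g hg =>
      exact ⟨1, fun N h N' h' n n' hh => row_loc (last_top N) (last_top N') hg h h' n n' hh⟩
    | inv_mem g hg =>
      exact ⟨1, fun N h N' h' n n' hh =>
        row_loc (last_top N) (last_top N') (bl_inv hg) h h' n n' hh⟩
    | one =>
      refine ⟨0, fun N h N' h' n n' hh => ?_⟩
      rw [one_mul, one_mul]
      simpa using hh 0 le_rfl
    | mul g k _ _ ihg ihk =>
      obtain ⟨r, hr⟩ := ihg
      obtain ⟨t, ht⟩ := ihk
      refine ⟨r + t, fun N h N' h' n n' hh => ?_⟩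
      rw [mul_assoc, mul_assoc]
      refine hr N (k * h) N' (k * h') n n' fun j hj => ht N h N' h' _ _ fun i hi => ?_
      have := hh (j + i) (by
        have := abs_add_le j i
        push_cast
        omega)
      rwa [← add_assoc, ← add_assoc] at this
  recur := recur

theorem exists_fam : ∃ (k : ℕ) (F : TFam Heis (Fin k)), ∀ n : ℕ, 0 < n →
    ∃ N0 Λ : ℕ, ∀ N, N0 ≤ N → ∀ h (s : ℤ),
      ∃ j : ℤ, |j| ≤ Λ ∧ F.row N (z ^ n * h) (s + j) ≠ F.row N h (s + j) := by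
  obtain ⟨k, ⟨e⟩⟩ := Finite.exists_equiv_fin (Comp → Val)
  refine ⟨k, fam.map e e.injective, fun n hn => ?_⟩
  obtain ⟨N0, Λ, H⟩ := z_moves hn
  refine ⟨N0, Λ, fun N hN h s => ?_⟩
  obtain ⟨j, h1, h2⟩ := H N hN h s
  exact ⟨j, h1, fun he => h2 (e.injective he)⟩

theorem z_inf_of {k : ℕ} (F : TFam Heis (Fin k)) (hF : ∀ n : ℕ, 0 < n →
    ∃ N0 Λ : ℕ, ∀ N, N0 ≤ N → ∀ h (s : ℤ),
      ∃ j : ℤ, |j| ≤ Λ ∧ F.row N (z ^ n * h) (s + j) ≠ F.row N h (s + j)) :
    ¬ IsOfFinOrder (F.rho z) := by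
  rw [isOfFinOrder_iff_pow_eq_one]
  rintro ⟨n, hn, he⟩
  obtain ⟨p, hp⟩ := F.X_nonempty
  apply F.a_ne (hF n hn) hp
  have := F.rho_val (z ^ n) ⟨p, hp⟩
  rw [map_pow, he] at this
  exact this.symm

theorem distorted_map {K : Type} [Group K] [DecidableEq K] (φ : Heis →* K) (ε : ℝ) (hε : 0 < ε) :
    ∃ N : ℕ, ∀ n : ℕ, N ≤ n → ∃ l : List K,
      (∀ s ∈ l, s ∈ ({φ x, φ y, φ z} : Finset K) ∨ s⁻¹ ∈ ({φ x, φ y, φ z} : Finset K)) ∧
      l.prod = φ z ^ n ∧ (l.length : ℝ) ≤ ε * n := by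
  obtain ⟨N, hN⟩ := z_distorted ε hε
  refine ⟨N, fun n hn => ?_⟩
  obtain ⟨l, h1, h2, h3⟩ := hN n hn
  have key : ∀ t ∈ [x, y, z], φ t ∈ ({φ x, φ y, φ z} : Finset K) := by
    intro t ht
    simp only [List.mem_cons, List.not_mem_nil, or_false] at ht
    rcases ht with rfl | rfl | rfl <;> simp
  refine ⟨l.map φ, fun s hs => ?_, ?_, by rwa [List.length_map]⟩
  · obtain ⟨t, ht, rfl⟩ := List.mem_map.1 hs
    rcases h1 t ht with h | h
    · exact Or.inl (key t h)
    · exact Or.inr (by rw [← map_inv]; exact key _ h)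
  · rw [← map_list_prod, h2, map_pow]

end H650Z.Min
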