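import Pool.Agent.H650Z.MinFree

set_option autoImplicit false

/-! Uniformly recurrent words of every length. -/

namespace H650Z.Min

open Classical H593Z.Sim H593Z.Sim.Heis

def Gam (M : ℤ) (γ : Heis) : Prop := M ∣ γ.a ∧ M ∣ γ.b ∧ M ∣ γ.c

theorem Gam.mono {M M' : ℤ} {γ : Heis} (h : Gam M γ) (hM : M' ∣ M) : Gam M' γ :=
  ⟨hM.trans h.1, hM.trans h.2.1, hM.trans h.2.2⟩

theorem Gam.pow {a b : ℕ} {γ : Heis} (h : Gam (kk ^ a) γ) (hab : b ≤ a) : Gam (kk ^ b) γ :=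
  h.mono (pow_dvd_pow _ hab)

theorem Gam.mul {M : ℤ} {γ γ' : Heis} (h : Gam M γ) (h' : Gam M γ') : Gam M (γ * γ') :=
  ⟨h.1.add h'.1, h.2.1.add h'.2.1, (h.2.2.add h'.2.2).add (h.1.mul_right _)⟩

theorem Gam.inv {M : ℤ} {γ : Heis} (h : Gam M γ) : Gam M γ⁻¹ :=
  ⟨h.1.neg_right, h.2.1.neg_right, h.2.2.neg_right.add (h.1.mul_right _)⟩

theorem Gam.conj {M : ℤ} {γ : Heis} (h : Gam M γ) (g : Heis) : Gam M (g⁻¹ * γ * g) := by
  obtain ⟨⟨a, ha⟩, ⟨b, hb⟩, ⟨c, hc⟩⟩ := h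
  refine ⟨⟨a, ?_⟩, ⟨b, ?_⟩, ⟨c - g.a * b + a * g.b, ?_⟩⟩ <;> simp [ha, hb, hc]
  ring

theorem Gam.split {m j : ℕ} {γ : Heis} (h : Gam (kk ^ (2 * m + j)) γ) :
    ∃ β, γ = dil (kk ^ m) β ∧ Gam (kk ^ j) β := by
  obtain ⟨⟨a, ha⟩, ⟨b, hb⟩, ⟨c, hc⟩⟩ := h
  refine ⟨⟨kk ^ j * (kk ^ m * a), kk ^ j * (kk ^ m * b), kk ^ j * c⟩, ?_,
    dvd_mul_right _ _, dvd_mul_right _ _, dvd_mul_right _ _⟩
  ext <;> simp only [dil, ha, hb, hc] <;> ring

theorem Gam.dil {j : ℕ} {β : Heis} (h : Gam (kk ^ j) β) : Gam (kk ^ (j + 1)) (dil kk β) := by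
  obtain ⟨⟨a, ha⟩, ⟨b, hb⟩, ⟨c, hc⟩⟩ := h
  refine ⟨⟨a, ?_⟩, ⟨b, ?_⟩, ⟨kk * c, ?_⟩⟩ <;> simp only [Heis.dil, ha, hb, hc] <;> ring

theorem tm_dil : ∀ (m : ℕ) (g β : Heis), tm m (g * dil (kk ^ m) β) = tm m g * β
  | 0, g, β => by
    show g * dil (kk ^ 0) β = g * β
    congr 1
    ext <;> simp [dil]
  | m + 1, g, β => by
    rw [tm_succ', tm_succ', pow_succ', ← dil_dil, (dig_dil g _).2, tm_dil m]

theorem colH_gam {γ : Heis} (h : Gam kk γ) (u : Heis) : colH (u * γ) = colH u := by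
  have h7 : ((kk : ℤ) : ZMod 7) = 0 := by
    rw [kk_def]
    push_cast
    rw [show (7 : ZMod 7) = 0 from rfl, zero_mul]
  obtain ⟨⟨a, ha⟩, ⟨b, hb⟩, ⟨c, hc⟩⟩ := h
  ext <;> simp [colH, ha, hb, hc, h7]

theorem dc_gam {β : Heis} (h : Gam kk β) (w : Heis) : dc (w * dil kk β) = dc w := by
  unfold dc
  refine Prod.ext (Subtype.ext (dig_dil w β).1) ?_
  show colH (tail kk (w * dil kk β)) = colH (tail kk w)
  rw [(dig_dil w β).2, colH_gam h]

theorem mk_gam {m : ℕ} {β : Heis} (h : Gam (kk ^ (m + 3)) β) (w : Heis) :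
    mk m (w * β) = mk m w := by
  obtain ⟨β', rfl, h'⟩ := Gam.split (m := 1) (j := m + 1) (h.pow (by omega))
  have h1 := h.pow (show ee m ≤ m + 3 by have := ee_le m; omega)
  rw [pow_one] at h1 ⊢
  unfold mk
  rw [dc_gam (by simpa using h'.pow (show 1 ≤ m + 1 by omega))]
  congr 1
  unfold fl
  simp only [mul_a, mul_b, add_right_comm _ _ (1 : ℤ), dvd_add_left h1.1, dvd_add_left h1.2.1]

theorem nu_gam (m : ℕ) (p : Rl) {β : Heis} (h : Gam (kk ^ m) β) (G g : Heis) :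
    nu m p (g * tm m (G * dil (kk ^ m) β * off m p)) = nu m p (g * tm m (G * off m p)) * β := by
  have hK : kk ^ m ≠ 0 := (pow_pos kk_pos m).ne'
  obtain ⟨⟨a, ha⟩, ⟨b, hb⟩, -⟩ := h
  unfold nu off
  split_ifs
  · have e : G * dil (kk ^ m) β * x = G * x * dil (kk ^ m) ⟨β.a, β.b, β.c - b⟩ := by
      ext <;> simp [dil, x, hb] <;> ring
    rw [e, tm_dil, ← mul_assoc g]
    generalize g * tm m (G * x) = u
    simp only [mul_b]
    rw [hb, Int.add_mul_ediv_left _ _ hK]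
    ext <;> simp [hb]
    ring
  · have e : G * dil (kk ^ m) β * y = G * y * dil (kk ^ m) ⟨β.a, β.b, β.c + a⟩ := by
      ext <;> simp [dil, y, ha] <;> ring
    rw [e, tm_dil, ← mul_assoc g]
    generalize g * tm m (G * y) = u
    simp only [mul_a]
    rw [ha, Int.add_mul_ediv_left _ _ hK]
    ext <;> simp [ha]
    ring
  · rw [mul_one, mul_one, tm_dil, mul_assoc]

theorem ediv_close {K : ℤ} (hK : 0 < K) (b s : ℤ) (hs : |s| ≤ 3) : |(s + b) / K - b / K| ≤ 3 := by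
  rw [abs_le] at hs ⊢
  have h1 : (s + b) / K ≤ (b + K * 3) / K := Int.ediv_le_ediv hK (by linarith)
  have h2 : (b + K * (-3)) / K ≤ (s + b) / K := Int.ediv_le_ediv hK (by linarith)
  rw [Int.add_mul_ediv_left _ _ hK.ne'] at h1 h2
  constructor <;> linarith

theorem nu_bl3 (m : ℕ) (p : Rl) {g : Heis} (hg : Bl 3 g) (u : Heis) :
    ∃ e, Bl 5 e ∧ nu m p (g * u) = e * nu m p u := by
  have hK : 0 < kk ^ m := pow_pos kk_pos m
  have key : ∀ s : ℤ, |s| ≤ 3 → Bl 5 ((⟨0, 0, s⟩ : Heis) * g) := by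
    intro s hs
    refine bl_mul 2 3 _ _ ?_ hg
    rw [abs_le] at hs
    refine ⟨by simp, by simp, ?_⟩
    rw [abs_le]
    constructor <;> simp <;> omega
  unfold nu
  split_ifs
  · refine ⟨_, key _ (ediv_close hK u.b g.b (by exact_mod_cast hg.2.1)), ?_⟩
    ext <;> simp
    ring
  · refine ⟨_, key (-((g.a + u.a) / kk ^ m - u.a / kk ^ m))
      (by rw [abs_neg]; exact ediv_close hK u.a g.a (by exact_mod_cast hg.1)), ?_⟩
    ext <;> simp
    ring
  · exact ⟨g, bl_le hg (by omega), rfl⟩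

def Agree (N N' m : ℕ) (i i' : ℤ) (G γ : Heis) : Prop :=
  ∀ g, Bl 3 g → (sys N' m).Φ i' (g * tm m (G * γ)) = (sys N m).Φ i (g * tm m G)

theorem agree_child {N N' m : ℕ} (h : m < N) (h' : m < N') {J J' : ℤ} {G γ : Heis}
    (hγ : Gam (kk ^ (3 * m + 4)) γ) (H : Agree N N' (m + 1) J J' G γ) (p : Rl) :
    Agree N N' m ((B : ℤ) * J + p.val) ((B : ℤ) * J' + p.val) (G * off m p)
      ((off m p)⁻¹ * γ * off m p) := by
  intro g hg
  obtain ⟨β, rfl, hβ⟩ := Gam.split (m := m + 1) (j := m + 2) (hγ.pow (by omega))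
  have e0 : G * off m p * ((off m p)⁻¹ * dil (kk ^ (m + 1)) β * off m p) =
      G * dil (kk ^ m) (dil kk β) * off m p := by
    rw [dil_dil, ← pow_succ]; group
  have hβ' := hβ.dil
  rw [sys_Phi h, sys_Phi h', e0]
  unfold cell
  rw [nu_gam m p (hβ'.pow (by omega)), mk_gam hβ']
  obtain ⟨e1, a1, b1⟩ := nu_bl3 m p hg (tm m (G * off m p))
  obtain ⟨e2, a2, b2⟩ := nu_near m p G
  obtain ⟨n0, a3, b3⟩ := tail_near (g := e1 * e2)
    (bl_le (bl_mul _ _ _ _ a1 a2) (by rw [RR_def]; omega)) (tm m G)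
  rw [mul_assoc, ← b2, ← b1, ← tm_succ] at b3
  generalize nu m p (g * tm m (G * off m p)) = w at b3
  have t1 : ∀ x, tile w x = (rel (dc w).2 x).1 * n0 * tm (m + 1) G := by
    intro x
    unfold tile
    rw [b3, mul_assoc]
  have t2 : ∀ x, tile (w * dil kk β) x =
      (rel (dc w).2 x).1 * n0 * tm (m + 1) (G * dil (kk ^ (m + 1)) β) := by
    intro x
    unfold tile
    rw [dc_gam (by simpa using hβ.pow (show 1 ≤ m + 2 by omega)), (dig_dil w β).2, b3, tm_dil,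
      mul_assoc, mul_assoc]
  congr 1
  · funext x
    unfold Psi
    rw [t1, t2]
    exact H _ (bl_le (bl_mul _ _ _ _ (rel _ _).2 a3) (by omega))
  · funext x n j
    unfold Xi
    rw [t1, t2, ← mul_assoc n.1 (_ * n0), ← mul_assoc n.1 (_ * n0), H _ (bl_mul 1 2 _ _ n.2
      (bl_mul 1 1 _ _ (rel _ _).2 a3))]

theorem descend {N N' : ℕ} (h h' : Heis) : ∀ (m : ℕ), m ≤ N → m ≤ N' → ∀ (J J' : ℤ) (G γ : Heis),
    h * (sys N m).f J = G → h' * (sys N' m).f J' = G * γ → Gam (kk ^ (3 * m + 1)) γ →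
    Agree N N' m J J' G γ → ∀ r : ℤ, 0 ≤ r → r < (B : ℤ) ^ m →
      rowL N' 0 h' ((B : ℤ) ^ m * J' + r) = rowL N 0 h ((B : ℤ) ^ m * J + r)
  | 0, _, _, J, J', G, γ, e, e', _, H, r, r1, r2 => by
    have hr : r = 0 := by rw [pow_zero] at r2; omega
    subst hr
    rw [pow_zero, one_mul, one_mul, add_zero, add_zero]
    funext j
    unfold rowL
    rw [e, e']
    have := H 1 (bl_le bl_zero (by omega))
    rw [one_mul, one_mul] at this
    rw [this]
  | m + 1, hm, hm', J, J', G, γ, e, e', hγ, H, r, r1, r2 => by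
    have hP : (0 : ℤ) < (B : ℤ) ^ m := pow_pos B_pos m
    have q1 : 0 ≤ r / (B : ℤ) ^ m := Int.ediv_nonneg r1 hP.le
    have q2 : r / (B : ℤ) ^ m < B := by
      rw [Int.ediv_lt_iff_lt_mul hP, ← pow_succ']; exact r2
    let p : Rl := ⟨(r / (B : ℤ) ^ m).toNat, by omega⟩
    have hp : (p.val : ℤ) = r / (B : ℤ) ^ m := Int.toNat_of_nonneg q1
    have e1 : ∀ I : ℤ, (B : ℤ) ^ (m + 1) * I + r =
        (B : ℤ) ^ m * ((B : ℤ) * I + p.val) + r % (B : ℤ) ^ m := by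
      intro I
      have := Int.mul_ediv_add_emod r ((B : ℤ) ^ m)
      rw [hp]
      linear_combination (-1 : ℤ) * this
    rw [e1, e1]
    refine descend h h' m (by omega) (by omega) _ _ (G * off m p) ((off m p)⁻¹ * γ * off m p)
      ?_ ?_ ((hγ.pow (by omega)).conj _) (agree_child (by omega) (by omega) hγ H p) _
      (Int.emod_nonneg _ hP.ne') (Int.emod_lt_of_pos _ hP)
    · rw [sys_f (by omega), ← mul_assoc, e]
    · rw [sys_f (by omega), ← mul_assoc, e']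
      group

/-! ### the idle cell at the centre of its tile -/

noncomputable def r3 : Rl := ⟨3, by have := B_def; omega⟩

theorem r3_val : r3.val = 3 := rfl

theorem env_idle (D : Ctrl) {Ψ Ψ' : Col → Env} (Ξ Ξ' : Col → NN → Comp → Val)
    (h1 : ∀ x, x ≠ D.dc.2 → TT ≤ d D.dc x) (h2 : d D.dc D.dc.2 = 0)
    (h3 : Ψ D.dc.2 (.own .dig) = Ψ' D.dc.2 (.own .dig)) : env r3 D Ψ Ξ = env r3 D Ψ' Ξ' := by
  have hl : ∀ x, len (th (d D.dc x)) = 0 := by
    intro x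
    by_cases hx : x = D.dc.2
    · rw [hx, h2]
      exact len_big (by unfold th; rw [TT_def]; omega)
    · have := h1 x hx
      have h4 := len_le (th (d D.dc x))
      unfold th at h4 ⊢
      omega
  have nL : ∀ x, ¬ needL r3 D.dc x := fun x h => by have := h.2; rw [hl] at this; omega
  have nR : ∀ x, ¬ needR r3 D.dc x := fun x h => by have := h.2; rw [hl] at this; omega
  have nH : ∀ x, ¬ hold r3 D.dc x := fun x h => by unfold hold at h; rw [hl] at h; omega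
  funext σ
  cases σ with
  | inL x => simp only [env, if_neg (nL x)]
  | inR x => simp only [env, if_neg (nR x)]
  | own j =>
    cases j with
    | role => rfl
    | dig => rfl
    | slot s =>
      simp only [env, val]
      by_cases hs : masked s = true
      · rw [if_pos ⟨rfl, hs⟩, if_pos ⟨rfl, hs⟩]
      · rw [if_neg (fun h => hs h.2), if_neg (fun h => hs h.2)]
        cases s with
        | cD x =>
          simp only [valS, gv]
          by_cases hx : x = D.dc.2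
          · rw [hx, src_one, h3]
          · have := h1 x hx
            have h4 := pt_ge 1
            rw [if_neg (by unfold th; omega), if_neg (by unfold th; omega)]
        | W x => simp only [valS, if_neg (nH x)]
        | RqL x => simp only [valS, if_neg (nL x)]
        | RqR x => simp only [valS, if_neg (nR x)]
        | _ => exact absurd rfl hs

noncomputable def w0 : Heis := ⟨3 * (RR + 1), 3 * (RR + 1), 24 * (RR + 1) ^ 2⟩

theorem center {g : Heis} (hg : Bl RR g) : tail kk (g * w0) = 1 := by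
  refine (box_self kk_pos ?_).2
  obtain ⟨h1, h2, h3⟩ := hg
  have hR : (0 : ℤ) ≤ RR := Nat.cast_nonneg _
  have e1 : |g.a * g.b| ≤ RR * RR := by
    rw [abs_mul]; exact mul_le_mul h1 h2 (abs_nonneg _) hR
  have e2 : |g.a * (RR + 1)| ≤ RR * (RR + 1) := by
    rw [abs_mul, abs_of_nonneg (show (0 : ℤ) ≤ RR + 1 by linarith)]
    exact mul_le_mul_of_nonneg_right h1 (by linarith)
  unfold Box
  rw [kk_def]
  simp only [w0, mul_a, mul_b, mul_c]
  generalize (RR : ℤ) = R at *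
  have e3 : 0 ≤ R * R := by positivity
  rw [abs_le] at h1 h2 h3 e1 e2
  refine ⟨by linarith, by linarith, by linarith, by linarith, by linarith, by linarith⟩

noncomputable def idle (L : ℕ) (g : Heis) : Env :=
  env r3 (mk L (g * w0)) (fun _ _ => .dig (mk (L + 1) 1)) (fun _ _ _ => .blank)

theorem tail_one : tail kk 1 = 1 := by ext <;> simp [tail]

theorem tm_one : ∀ m, tm m 1 = 1
  | 0 => rfl
  | m + 1 => by rw [tm_succ, tm_one m, tail_one]

theorem phi_idle {N L : ℕ} (h : L + 1 < N) (J : ℤ) {γ : Heis} (hγ : Gam (kk ^ (3 * L + 6)) γ)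
    {g : Heis} (hg : Bl 3 g) :
    (sys N L).Φ ((B : ℤ) * ((B : ℤ) * J + r3.val) + r3.val) (g * tm L (dil (kk ^ L) w0 * γ)) =
      idle L g := by
  obtain ⟨β, rfl, hβ⟩ := Gam.split (m := L + 1) (j := L + 4) (hγ.pow (by omega))
  have hR := RR_def
  have hc := cap_def
  have e0 : tm L (dil (kk ^ L) w0 * dil (kk ^ (L + 1)) β) = w0 * dil kk β := by
    rw [pow_succ, ← dil_dil, ← dil_mul, ← one_mul (dil _ _), tm_dil, tm_one, one_mul]
  rw [sys_Phi (by omega), e0, ← mul_assoc]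
  unfold cell idle
  rw [nu_plain (by simp [r3_val]) (by simp [r3_val]), mk_gam (hβ.dil.pow (by omega))]
  apply env_idle
  · intro x hx
    by_contra hlt
    obtain ⟨g', h1, h2⟩ := near_d (D := dc (g * w0)) (x := x) (by simp only [mk] at hlt; omega)
    apply hx
    rw [← h2, ← dc_mul, ← mul_assoc]
    show colH (tail kk _) = colH (tail kk _)
    rw [center (bl_le hg (by omega)),
      center (bl_le (bl_mul _ _ _ _ h1 hg) (by simp only [mk] at hlt; omega))]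
  · exact d_self _
  · simp only [mk, Psi]
    rw [← dc_gam (by simpa using hβ.pow (show 1 ≤ L + 4 by omega)) (g * w0), tile_self,
      (dig_dil _ β).2, center (bl_le hg (by omega)), sys_Phi h]
    unfold cell
    rw [nu_plain (by simp [r3_val]) (by simp [r3_val]), mk_gam hβ]
    rfl

/-! ### all frames occur -/

def Reach (m j : ℕ) (φ : Heis) : Prop :=
  ∀ N, m + j ≤ N → ∀ J : ℤ, ∃ r : ℤ, 0 ≤ r ∧ r < (B : ℤ) ^ j ∧
    (sys N m).f ((B : ℤ) ^ j * J + r) = (sys N (m + j)).f J * φ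

theorem reach_zero (m : ℕ) : Reach m 0 1 := fun _ _ _ => ⟨0, le_rfl, by simp, by simp⟩

theorem reach_step {m j : ℕ} {φ : Heis} (h : Reach (m + 1) j φ) (p : Rl) :
    Reach m (j + 1) (φ * off m p) := by
  intro N hN J
  obtain ⟨r, r1, r2, r3⟩ := h N (by omega) J
  have hB := B_pos
  have hp : (p.val : ℤ) < B := by exact_mod_cast p.2
  refine ⟨B * r + p.val, by positivity, ?_, ?_⟩
  · have : (B : ℤ) * (r + 1) ≤ B * (B : ℤ) ^ j := mul_le_mul_of_nonneg_left (by omega) hB.le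
    rw [pow_succ']
    linarith
  · rw [show (B : ℤ) ^ (j + 1) * J + (B * r + p.val) = B * ((B : ℤ) ^ j * J + r) + p.val by ring,
      sys_f (by omega), r3, mul_assoc, show m + 1 + j = m + (j + 1) by omega]

theorem reach_down {φ : Heis} {j : ℕ} : ∀ (i m : ℕ), Reach (m + i) j φ → Reach m (j + i) φ
  | 0, _, h => h
  | i + 1, m, h => by
    have h1 := reach_step (reach_down i (m + 1) (by rwa [show m + 1 + i = m + (i + 1) by omega])) r3
    rwa [off_plain (by simp [r3_val]) (by simp [r3_val]), mul_one] at h1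

theorem reach_up {φ : Heis} {m j : ℕ} (h : Reach m j φ) : Reach m (j + 1) φ := by
  intro N hN J
  have hB := B_def
  let p0 : Rl := ⟨0, by omega⟩
  have hp0 : p0.val = 0 := rfl
  obtain ⟨r, r1, r2, r3⟩ := h N (by omega) (B * J + p0.val)
  have hP : (0 : ℤ) < (B : ℤ) ^ j := pow_pos B_pos j
  refine ⟨r, r1, ?_, ?_⟩
  · have : (B : ℤ) ^ j * 1 ≤ (B : ℤ) ^ j * B :=
      mul_le_mul_of_nonneg_left (by have := B_pos; omega) hP.le
    rw [pow_succ]
    linarith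
  · rw [sys_f (by omega), off_plain (by omega) (by omega), mul_one, hp0] at r3
    rw [← add_assoc, ← r3]
    congr 1
    push_cast
    ring

theorem reach_mono {φ : Heis} {m j j' : ℕ} (h : Reach m j φ) (hj : j ≤ j') : Reach m j' φ := by
  induction hj with
  | refl => exact h
  | step _ ih => exact reach_up ih

def Occ (φ : Heis) : Prop := ∀ m, ∃ j, Reach m j φ

theorem occ_one : Occ 1 := fun m => ⟨0, reach_zero m⟩

theorem occ_off {φ : Heis} (h : Occ φ) (p : Rl) {o : Heis}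
    (ho : ∀ m, sp m = true → off m p = o) : Occ (φ * o) := by
  intro m
  obtain ⟨j, hj⟩ := h (top m + 1 + 1)
  have h1 := reach_step hj p
  rw [ho _ (sp_top m), show top m + 1 = m + (ee m - 1 + 1) from rfl] at h1
  exact ⟨_, reach_down _ _ h1⟩

theorem occ_x {φ : Heis} (h : Occ φ) : ∀ n : ℕ, Occ (φ * x ^ n)
  | 0 => by simpa using h
  | n + 1 => by
    rw [pow_succ, ← mul_assoc]
    exact occ_off (occ_x h n) ⟨1, by have := B_def; omega⟩ fun m hm => by simp [off, hm]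

theorem occ_y {φ : Heis} (h : Occ φ) : ∀ n : ℕ, Occ (φ * y ^ n)
  | 0 => by simpa using h
  | n + 1 => by
    rw [pow_succ, ← mul_assoc]
    exact occ_off (occ_y h n) ⟨2, by have := B_def; omega⟩ fun m hm => by simp [off, hm]

def word (M a b c : ℕ) : Heis := 1 * x ^ 1 * y ^ c * x ^ (M - 1) * y ^ (M - c) * x ^ a * y ^ b

theorem occ_word (M a b c : ℕ) : Occ (word M a b c) :=
  occ_y (occ_x (occ_y (occ_x (occ_y (occ_x occ_one _) _) _) _) _) _

theorem word_cover {M : ℕ} (hM : 0 < M) (g : Heis) :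
    ∃ t : Fin M × Fin M × Fin M, Gam M ((word M t.1 t.2.1 t.2.2)⁻¹ * g) := by
  have hM' : (0 : ℤ) < M := by exact_mod_cast hM
  have key : ∀ s : ℤ, ∃ (t : Fin M) (q : ℤ), s = t.val + M * q := by
    intro s
    have h1 := Int.emod_nonneg s hM'.ne'
    have h2 := Int.emod_lt_of_pos s hM'
    refine ⟨⟨(s % M).toNat, by omega⟩, s / M, ?_⟩
    simp only [Int.toNat_of_nonneg h1]
    exact (Int.emod_add_mul_ediv s M).symm
  obtain ⟨a, qa, ha⟩ := key g.a
  obtain ⟨b, qb, hb⟩ := key g.b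
  obtain ⟨c, qc, hc⟩ := key (g.c - a.val * b.val)
  have hc' : g.c = c.val + M * qc + a.val * b.val := by linarith
  refine ⟨(a, b, c), ?_⟩
  unfold word
  simp only [← zpow_natCast, x_zpow, y_zpow]
  rw [Nat.cast_sub (show 1 ≤ M from hM), Nat.cast_sub c.2.le]
  refine ⟨⟨qa - 1, ?_⟩, ⟨qb - 1, ?_⟩,
    ⟨qc - M + c.val - b.val - (M + a.val) * (qb - 1), ?_⟩⟩ <;> simp [ha, hb, hc'] <;> ring

theorem recur (L0 : ℕ) : ∃ (w : ℤ → Comp → Val) (N0 Λ : ℕ), ∀ N, N0 ≤ N → ∀ h (s : ℤ),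
    ∃ t : ℤ, s ≤ t ∧ t ≤ s + Λ ∧ ∀ j : ℤ, |j| ≤ L0 → rowL (top N) 0 h (t + j) = w j := by
  obtain ⟨L, hL⟩ : ∃ L : ℕ, (2 * L0 : ℤ) < (B : ℤ) ^ L := by
    refine ⟨2 * L0, ?_⟩
    have : 2 * L0 < B ^ (2 * L0) := Nat.lt_pow_self (by have := B_def; omega)
    exact_mod_cast this
  obtain ⟨M, hM⟩ := Int.eq_ofNat_of_zero_le (pow_pos kk_pos (3 * L + 6)).le
  have hM0 : 0 < M := by
    have := pow_pos kk_pos (3 * L + 6)
    omega
  choose jj hjj using fun t : Fin M × Fin M × Fin M => occ_word M t.1 t.2.1 t.2.2 (L + 2)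
  obtain ⟨j0, hj0⟩ := (Set.finite_range jj).bddAbove
  have inst : ∀ N, L + 2 + j0 ≤ N → ∀ h (s : ℤ), ∃ (J : ℤ) (γ : Heis),
      Gam (kk ^ (3 * L + 6)) γ ∧
      h * (sys N L).f ((B : ℤ) * ((B : ℤ) * J + r3.val) + r3.val) = dil (kk ^ L) w0 * γ ∧
      s ≤ (B : ℤ) ^ (L + 2) * J ∧
        (B : ℤ) ^ (L + 2) * J ≤ s + 2 * (B : ℤ) ^ (L + 2 + j0) := by
    intro N hN h s
    have hP : (0 : ℤ) < (B : ℤ) ^ (L + 2 + j0) := pow_pos B_pos _
    obtain ⟨t, ht⟩ := word_cover hM0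
      ((h * (sys N (L + 2 + j0)).f (s / (B : ℤ) ^ (L + 2 + j0) + 1))⁻¹ * dil (kk ^ L) w0)
    obtain ⟨r, r1, r2, r4⟩ := reach_mono (hjj t) (hj0 ⟨t, rfl⟩) N hN
      (s / (B : ℤ) ^ (L + 2 + j0) + 1)
    have hs1 := Int.mul_ediv_add_emod s ((B : ℤ) ^ (L + 2 + j0))
    have hs2 := Int.emod_nonneg s hP.ne'
    have hs3 := Int.emod_lt_of_pos s hP
    have hQ : (0 : ℤ) < (B : ℤ) ^ (L + 2) := pow_pos B_pos _
    have e1 : (B : ℤ) ^ (L + 2) * r ≤ (B : ℤ) ^ (L + 2) * (B : ℤ) ^ j0 :=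
      mul_le_mul_of_nonneg_left r2.le hQ.le
    have e2 : 0 ≤ (B : ℤ) ^ (L + 2) * r := by positivity
    refine ⟨(B : ℤ) ^ j0 * (s / (B : ℤ) ^ (L + 2 + j0) + 1) + r, _, hM ▸ ht.inv, ?_, ?_, ?_⟩
    · rw [sys_f (by omega), sys_f (by omega), r4, off_plain (by simp [r3_val]) (by simp [r3_val]),
        off_plain (by simp [r3_val]) (by simp [r3_val])]
      group
    · rw [mul_add, ← mul_assoc, ← pow_add]
      linarith
    · rw [mul_add, ← mul_assoc, ← pow_add]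
      rw [← pow_add] at e1
      linarith
  obtain ⟨J1, γ1, g1, f1, -, -⟩ := inst (top (L + 2 + j0)) (le_top _) 1 0
  refine ⟨fun j => rowL (top (L + 2 + j0)) 0 1
    ((B : ℤ) ^ L * ((B : ℤ) * ((B : ℤ) * J1 + r3.val) + r3.val) + (L0 + j)), L + 2 + j0,
    2 * B ^ (L + 2 + j0) + (B ^ L * (B * 3 + 3) + L0), fun N hN h s => ?_⟩
  have hN' := hN.trans (le_top N)
  have hN1 := le_top (L + 2 + j0)
  obtain ⟨J2, γ2, g2, f2, b1, b2⟩ := inst (top N) hN' h s
  have e3 : (B : ℤ) ^ L * ((B : ℤ) * ((B : ℤ) * J2 + r3.val) + r3.val) =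
      (B : ℤ) ^ (L + 2) * J2 + (B : ℤ) ^ L * (B * 3 + 3) := by
    rw [r3_val]; push_cast; ring
  have e4 : (0 : ℤ) ≤ (B : ℤ) ^ L * (B * 3 + 3) := by positivity
  refine ⟨(B : ℤ) ^ L * ((B : ℤ) * ((B : ℤ) * J2 + r3.val) + r3.val) + L0, by rw [e3]; linarith,
    by rw [e3]; push_cast; linarith, fun j hj => ?_⟩
  rw [add_assoc]
  rw [abs_le] at hj
  have e5 : dil (kk ^ L) w0 * γ1 * (γ1⁻¹ * γ2) = dil (kk ^ L) w0 * γ2 := by group
  refine descend 1 h L (by omega) (by omega) _ _ _ (γ1⁻¹ * γ2) f1 (by rw [f2, e5])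
    ((g1.inv.mul g2).pow (by omega)) (fun g hg => ?_) _ (by omega) (by omega)
  rw [e5, phi_idle (by omega) _ g2 hg, phi_idle (by omega) _ g1 hg]

end H650Z.Min
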