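import Pool.Agent.H650Z.MinLaw
import Pool.Agent.H650Z.MinGeo

set_option autoImplicit false

/-! The tower of simulations. -/

namespace H650Z.Min

open Classical H593Z.Sim H593Z.Sim.Heis

theorem B_pos : (0 : ℤ) < B := by
  have := B_def
  omega

noncomputable def rl (i : ℤ) : Rl := ⟨(i % B).toNat, by
  have h1 := Int.emod_lt_of_pos i B_pos
  have h2 := Int.emod_nonneg i B_pos.ne'
  omega⟩

theorem rl_val (i : ℤ) : ((rl i).val : ℤ) = i % B :=
  Int.toNat_of_nonneg (Int.emod_nonneg i B_pos.ne')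

theorem cell_div (J : ℤ) (p : Rl) : ((B : ℤ) * J + p.val) / B = J := by
  rw [add_comm, Int.add_mul_ediv_left _ _ B_pos.ne', Int.ediv_eq_zero_of_lt (by positivity)
    (by exact_mod_cast p.2), zero_add]

theorem cell_rl (J : ℤ) (p : Rl) : rl ((B : ℤ) * J + p.val) = p := by
  apply Fin.ext
  have h := rl_val ((B : ℤ) * J + p.val)
  rw [add_comm, Int.add_mul_emod_self_left, Int.emod_eq_of_lt (by positivity)
    (by exact_mod_cast p.2), add_comm] at h
  exact_mod_cast h

theorem cell_eq (i : ℤ) : i = (B : ℤ) * (i / B) + (rl i).val := by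
  rw [rl_val]; exact (Int.mul_ediv_add_emod i B).symm

theorem succ_cases (i : ℤ) :
    ((i + 1) / B = i / B ∧ (rl (i + 1)).val = (rl i).val + 1) ∨
      ((i + 1) / B = i / B + 1 ∧ (rl i).val = B - 1 ∧ (rl (i + 1)).val = 0) := by
  have h := cell_eq i
  have h2 := (rl i).2
  by_cases h1 : (rl i).val + 1 < B
  · left
    have e : i + 1 = (B : ℤ) * (i / B) + ((⟨(rl i).val + 1, h1⟩ : Rl).val : ℤ) := by
      push_cast; linarith
    rw [e, cell_div, cell_rl]
    exact ⟨rfl, rfl⟩
  · right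
    have h3 : ((rl i).val : ℤ) + 1 = B := by omega
    have e : i + 1 = (B : ℤ) * (i / B + 1) + ((⟨0, by omega⟩ : Rl).val : ℤ) := by
      push_cast; linarith
    rw [e, cell_div, cell_rl]
    exact ⟨rfl, by omega, rfl⟩

structure Dat where
  f : ℤ → Heis
  Φ : ℤ → Heis → Env

noncomputable def Psi (Y : Dat) (J : ℤ) (w : Heis) : Col → Env := fun x => Y.Φ J (tile w x)

noncomputable def Xi (Y : Dat) (J : ℤ) (w : Heis) : Col → NN → Comp → Val :=
  fun x n j => Y.Φ J (n.1 * tile w x) (.own j)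

noncomputable def cell (m : ℕ) (Y : Dat) (J : ℤ) (p : Rl) (u : Heis) : Env :=
  env p (mk m (nu m p u)) (Psi Y J (nu m p u)) (Xi Y J (nu m p u))

noncomputable def enc (m : ℕ) (Y : Dat) : Dat where
  f := fun i => Y.f (i / B) * off m (rl i)
  Φ := fun i u => cell m Y (i / B) (rl i) u

structure Ok (l : ℕ) (Y : Dat) : Prop where
  law : ∀ J T (n : NN) j, Y.Φ J (n.1 * T) (.own j) = step n (Y.Φ J T) j
  tolR : ∀ J T h g, Bl 1 g → tm l (h * Y.f J) = g * T → ∀ x,
    Y.Φ J T (.inR x) = rd (Y.Φ J T (sl (.RqR x)))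
      (fun y => opd (.Pst true y) (Y.Φ (J + 1) (tm l (h * Y.f (J + 1)))))
  tolL : ∀ J T h g, Bl 1 g → tm l (h * Y.f (J + 1)) = g * T → ∀ x,
    Y.Φ (J + 1) T (.inL x) = rd (Y.Φ (J + 1) T (sl (.RqL x)))
      (fun y => opd (.Pst false y) (Y.Φ J (tm l (h * Y.f J))))

def Flag (l : ℕ) (Y : Dat) : Prop := ∀ J T, getFl (Y.Φ J T (.own .dig)) = fl l T

theorem move_ok {l : ℕ} {Y : Dat} (hY : Ok l Y) (J : ℤ) {e : Heis} (he : Bl 2 e) (w : Heis) :
    Move (dc w) (dc (e * w)) (Psi Y J w) (Psi Y J (e * w)) (Xi Y J w) (Xi Y J (e * w)) where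
  l1 := d_back he w
  l2 := d_forth he w
  z1 := d_self w
  z2 := d_self _
  s1 := fun x h => by unfold Psi; rw [tile_move (bl_le he (by omega)) h]
  s2 := fun x h => by unfold Xi; rw [tile_move (bl_le he (by omega)) h]
  nw := fun x _ j => by unfold Psi Xi; rw [tile_self]; rfl
  law := fun x n j => hY.law J _ n j

theorem cell_law {m : ℕ} {Y : Dat} (hY : Ok (m + 1) Y) (hf : last m = true ∨ Flag (m + 1) Y)
    (J : ℤ) (p : Rl) (u : Heis) (n : NN) (j : Comp) :
    cell m Y J p (n.1 * u) (.own j) = step n (cell m Y J p u) j := by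
  have h1 := nu_mul m p n.2 u
  have M := move_ok hY J (mv_bl n.2 p (mk m (nu m p u))) (nu m p u)
  have hE := dc_mul (mv n.1 p (mk m (nu m p u))) (nu m p u)
  rw [← h1] at M hE
  unfold cell
  cases j with
  | role => exact (law_role _ _ _ _ _).symm
  | slot s => exact law_slot (D := mk m (nu m p u)) M n hE s
  | dig =>
    rw [law_dig (D := mk m (nu m p u)) M n hE, upd_eq m p n.2 u]
    · rfl
    · rcases hf with hf | hf
      · exact Or.inl hf
      · right
        unfold Psi
        rw [tile_self]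
        exact hf _ _

theorem near_pair {m : ℕ} {p p' : Rl} {G g u : Heis} (hg : Bl 1 g)
    (h : tm m (G * off m p) = g * u) :
    ∃ e, Bl 6 e ∧ nu m p' (tm m (G * off m p')) = e * nu m p u := by
  obtain ⟨e1, a1, b1⟩ := nu_bl m p hg u
  obtain ⟨e2, a2, b2⟩ := nu_near m p G
  obtain ⟨e3, a3, b3⟩ := nu_near m p' G
  refine ⟨e3 * e2⁻¹ * e1, bl_mul 4 2 _ _ (bl_mul 2 2 _ _ a3 (bl_inv a2)) a1, ?_⟩
  rw [h, b1] at b2
  rw [b3, mul_assoc, b2]
  group

theorem port_tile {m : ℕ} {G g u : Heis} (hg : Bl 1 g) (h : tm m G = g * u) {x : Col}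
    (hx : d (dc u) x < cap) : ∃ n, Bl 1 n ∧ tm (m + 1) G = n * tile u x := by
  obtain ⟨g', h1, -, h3⟩ := near_tile hx
  obtain ⟨n, hn, h4⟩ := tail_near (g := g * g'⁻¹)
    (bl_le (bl_mul _ _ _ _ hg (bl_inv h1)) (by rw [RR_def]; omega)) (g' * u)
  refine ⟨n, hn, ?_⟩
  rw [tm_succ, h, h3, ← h4]
  congr 1
  group

theorem enc_ok {m : ℕ} {Y : Dat} (hY : Ok (m + 1) Y) (hf : last m = true ∨ Flag (m + 1) Y) :
    Ok m (enc m Y) where
  law := fun i u n j => cell_law hY hf _ _ u n j
  tolR := by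
    intro i u h g hg ht x
    have hB := B_def
    simp only [enc] at ht ⊢
    rcases succ_cases i with ⟨e1, e2⟩ | ⟨e1, e2, e3⟩
    · rw [e1]
      rw [← mul_assoc] at ht
      obtain ⟨e, he, hw⟩ := near_pair (p' := rl (i + 1)) hg ht
      unfold cell
      rw [← mul_assoc, hw]
      exact tol_innerR e2 x (d_back he _ x) (d_forth he _ x)
        (fun hx => by unfold Psi; rw [tile_move (bl_le he (by omega)) hx])
    · rw [e1]
      rw [off_plain (by omega) (by omega), mul_one] at ht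
      unfold cell
      rw [off_plain (by omega) (by omega), mul_one, nu_plain (by omega) (by omega),
        nu_plain (by omega) (by omega)]
      refine tol_portR e2 e3 x fun hx x' => ?_
      obtain ⟨n, hn, h4⟩ := port_tile hg ht hx
      have := hY.tolR (i / B) _ h n hn h4 x'
      unfold Psi
      rw [this]
      simp only [mk]
      rw [tile_self, ← tm_succ]
  tolL := by
    intro i u h g hg ht x
    have hB := B_def
    simp only [enc] at ht ⊢
    rcases succ_cases i with ⟨e1, e2⟩ | ⟨e1, e2, e3⟩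
    · rw [e1] at ht ⊢
      rw [← mul_assoc] at ht
      obtain ⟨e, he, hw⟩ := near_pair (p' := rl i) hg ht
      unfold cell
      rw [← mul_assoc, hw]
      exact tol_innerL e2 x (d_back he _ x) (d_forth he _ x)
        (fun hx => by unfold Psi; rw [tile_move (bl_le he (by omega)) hx])
    · rw [e1] at ht ⊢
      rw [off_plain (by omega) (by omega), mul_one] at ht
      unfold cell
      rw [off_plain (by omega) (by omega), mul_one, nu_plain (by omega) (by omega),
        nu_plain (by omega) (by omega)]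
      refine tol_portL e3 e2 x fun hx x' => ?_
      obtain ⟨n, hn, h4⟩ := port_tile hg ht hx
      have := hY.tolL (i / B) _ h n hn h4 x'
      unfold Psi
      rw [this]
      simp only [mk]
      rw [tile_self, ← tm_succ]

theorem enc_flag (m : ℕ) (Y : Dat) : Flag m (enc m Y) := fun _ T => fl_nu m m _ T

def null : Dat := ⟨fun _ => 1, fun _ _ _ => .blank⟩

theorem null_ok (l : ℕ) : Ok l null where
  law := fun _ _ _ _ => rfl
  tolR := fun _ _ _ _ _ _ _ => rfl
  tolL := fun _ _ _ _ _ _ _ => rfl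

noncomputable def tw (N : ℕ) : ℕ → Dat
  | 0 => enc N null
  | j + 1 => enc (N - (j + 1)) (tw N j)

noncomputable def sys (N m : ℕ) : Dat := tw N (N - m)

theorem sys_step {N m : ℕ} (h : m < N) : sys N m = enc m (sys N (m + 1)) := by
  unfold sys
  rw [show N - m = N - (m + 1) + 1 by omega]
  simp only [tw]
  rw [show N - (N - (m + 1) + 1) = m by omega]

theorem tw_ok {N : ℕ} (hN : last N = true) : ∀ j, j ≤ N →
    Ok (N - j) (tw N j) ∧ Flag (N - j) (tw N j)
  | 0, _ => ⟨enc_ok (null_ok _) (Or.inl hN), enc_flag _ _⟩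
  | j + 1, h => by
    obtain ⟨h1, h2⟩ := tw_ok hN j (by omega)
    rw [show N - j = N - (j + 1) + 1 by omega] at h1 h2
    exact ⟨enc_ok h1 (Or.inr h2), enc_flag _ _⟩

theorem sys_ok {N : ℕ} (hN : last N = true) : Ok 0 (sys N 0) := by
  have := (tw_ok hN N le_rfl).1
  rwa [Nat.sub_self] at this

/-- the row seen at global time `h` on level `m` -/
noncomputable def rowL (N m : ℕ) (h : Heis) (i : ℤ) : Comp → Val :=
  fun j => (sys N m).Φ i (tm m (h * (sys N m).f i)) (.own j)

theorem opd_congr (left : Bool) (y : Col) {Φ Φ' : Env} (h : ∀ j, Φ (.own j) = Φ' (.own j)) :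
    opd (.Pst left y) Φ = opd (.Pst left y) Φ' := by
  unfold opd pk
  rw [h, h]
  cases Φ' (.own .role) <;> cases Φ' (.own .dig) <;> simp only [pk', ksrc, sl, h]

theorem row_loc {N N' : ℕ} (hN : last N = true) (hN' : last N' = true) {g : Heis} (hg : Bl 1 g)
    (h h' : Heis) (i i' : ℤ)
    (hh : ∀ j : ℤ, |j| ≤ (1 : ℕ) → rowL N 0 h (i + j) = rowL N' 0 h' (i' + j)) :
    rowL N 0 (g * h) i = rowL N' 0 (g * h') i' := by
  have h0 := hh 0 (by simp)
  have h1 := hh 1 (by simp)
  have h2 := hh (-1) (by simp)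
  rw [add_zero, add_zero] at h0
  have O := sys_ok hN
  have O' := sys_ok hN'
  funext j
  show (sys N 0).Φ i (g * h * (sys N 0).f i) (.own j) =
    (sys N' 0).Φ i' (g * h' * (sys N' 0).f i') (.own j)
  rw [mul_assoc, mul_assoc, O.law i _ ⟨g, hg⟩, O'.law i' _ ⟨g, hg⟩]
  congr 1
  funext σ
  have k0 : ∀ j, (sys N 0).Φ i (h * (sys N 0).f i) (.own j) =
      (sys N' 0).Φ i' (h' * (sys N' 0).f i') (.own j) := congrFun h0
  cases σ with
  | own j => exact k0 j
  | inR x =>
    have a1 := O.tolR i _ h 1 bl_one (one_mul _).symm x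
    have a2 := O'.tolR i' _ h' 1 bl_one (one_mul _).symm x
    refine a1.trans (Eq.trans ?_ a2.symm)
    unfold sl
    congr 1
    · exact k0 _
    · funext y
      exact opd_congr _ _ (congrFun h1)
  | inL x =>
    have a1 := O.tolL (i + -1) _ h 1 bl_one (one_mul _).symm x
    have a2 := O'.tolL (i' + -1) _ h' 1 bl_one (one_mul _).symm x
    rw [neg_add_cancel_right] at a1 a2
    refine a1.trans (Eq.trans ?_ a2.symm)
    unfold sl
    congr 1
    · exact k0 _
    · funext y
      exact opd_congr _ _ (congrFun h2)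

end H650Z.Min
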